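import Pool.Agent.X298.PA.Base

/-!
# The phase of `Λ(γ)` for `γ → ∞`
-/

set_option autoImplicit false

namespace Pool.Agent.X298.PA

open Complex Filter Topology Set
open Pool.Agent.W189.ML Pool.Agent.W189.LC Pool.Agent.W187.UR

theorem log_sub_eq {γ : ℝ} (hγ : 2 * Real.pi ≤ γ) {z : ℂ} (hz : z ∈ HS 1) :
    log (z - γ * I) = log (-(γ * I)) + log (1 + z * I / γ) ∧ 1 / 2 ≤ (1 + z * I / γ).re := by
  have hπ := Real.pi_pos
  have hγ0 : 0 < γ := by linarith
  have hγc : (γ : ℂ) ≠ 0 := by exact_mod_cast hγ0.ne'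
  have hre : (z * I / γ).re = -z.im / γ := by
    rw [Complex.div_ofReal_re, mul_I_re]
  have him : (z * I / γ).im = z.re / γ := by
    rw [Complex.div_ofReal_im, mul_I_im]
  have h1 : 1 / 2 ≤ (1 + z * I / γ).re := by
    rw [add_re, one_re, hre]
    have h2 := (abs_le.1 hz.2).2
    have h3 : z.im / γ ≤ 1 / 2 := by
      rw [div_le_iff₀ hγ0]
      linarith
    have h4 : -z.im / γ = -(z.im / γ) := by ring
    rw [h4]
    linarith
  have hre0 : (0 : ℝ) < (1 + z * I / γ).re := by linarith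
  have him0 : 0 ≤ (1 + z * I / γ).im := by
    rw [add_im, one_im, him, zero_add]
    exact div_nonneg (by linarith [hz.1]) hγ0.le
  have hprod : z - γ * I = (-(γ * I)) * (1 + z * I / γ) := by
    field_simp
    linear_combination z * I_mul_I
  have hne1 : -(γ * I : ℂ) ≠ 0 := neg_ne_zero.2 (mul_ne_zero hγc I_ne_zero)
  have hne2 : (1 + z * I / γ : ℂ) ≠ 0 := by
    intro h
    rw [h] at hre0
    simp at hre0
  have harg1 : arg (-(γ * I : ℂ)) = -(Real.pi / 2) := by
    have : -(γ * I : ℂ) = (γ : ℂ) * (-I) := by ring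
    rw [this, Complex.arg_real_mul _ hγ0, Complex.arg_neg_I]
  have harg2 := Complex.abs_arg_lt_pi_div_two_iff.2 (Or.inl hre0)
  have harg3 := abs_lt.1 harg2
  refine ⟨?_, h1⟩
  rw [hprod]
  refine Complex.log_mul hne1 hne2 ?_
  rw [harg1]
  constructor <;> linarith [harg3.1, harg3.2, Complex.arg_nonneg_iff.2 him0]

theorem lam_close {γ : ℝ} (hγ : 2 * Real.pi ≤ γ) :
    ‖Lam γ - log (-(γ * I))‖ ≤ (Real.exp (Real.exp 1) + 1) * (2 / γ * 5) := by
  have hπ := Real.pi_pos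
  have hγ0 : 0 < γ := by linarith
  have hadm : Adm 1 (fun z => log (-(γ * I)) * exp (-(z * ((0 : ℝ) : ℂ)))) := by
    refine ⟨by fun_prop, ‖log (-(γ * I))‖, 0, norm_nonneg _, le_rfl, fun z _ => ?_⟩
    simp
  have h1 : J 1 (fun z => log (z - γ * I) - log (-(γ * I)) * exp (-(z * ((0 : ℝ) : ℂ)))) =
      Lam γ - log (-(γ * I)) := by
    rw [J_sub zero_le_one (Pool.Agent.W351.UR.adm_logr γ) hadm, J_const_mul, J_exp_zero, mul_one, Lam_eq]
  rw [← h1]
  refine norm_J_lin (by positivity) fun z hz => ?_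
  obtain ⟨h2, h3⟩ := log_sub_eq hγ hz
  have h4 : log (z - γ * I) - log (-(γ * I)) * exp (-(z * ((0 : ℝ) : ℂ))) = log (1 + z * I / γ) := by
    rw [h2]
    simp
  rw [h4]
  refine (norm_log_one_add h3).trans ?_
  rw [norm_div, norm_mul, norm_I, mul_one, Complex.norm_real, Real.norm_eq_abs, abs_of_pos hγ0]
  have h5 : ‖z‖ ≤ 4 + z.re := by
    refine (Complex.norm_le_abs_re_add_abs_im z).trans ?_
    rw [abs_of_nonneg (by linarith [hz.1])]
    have := hz.2
    have := Real.pi_lt_four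
    linarith
  calc 2 * (‖z‖ / γ) = 2 / γ * ‖z‖ := by ring
    _ ≤ 2 / γ * (4 + z.re) := mul_le_mul_of_nonneg_left h5 (by positivity)

/-- the imaginary part of `Λ(γ)` -/
theorem lam_im {γ : ℝ} (hγ : 2 * Real.pi ≤ γ) :
    |(Lam γ).im + Real.pi / 2| ≤ 10 * (Real.exp (Real.exp 1) + 1) / γ := by
  have hπ := Real.pi_pos
  have hγ0 : 0 < γ := by linarith
  have h1 := (Complex.abs_im_le_norm _).trans (lam_close hγ)
  have h2 : (log (-(γ * I : ℂ))).im = -(Real.pi / 2) := by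
    have : -(γ * I : ℂ) = (γ : ℂ) * (-I) := by ring
    rw [Complex.log_im, this, Complex.arg_real_mul _ hγ0, Complex.arg_neg_I]
  rw [sub_im, h2] at h1
  have h3 : (Real.exp (Real.exp 1) + 1) * (2 / γ * 5) = 10 * (Real.exp (Real.exp 1) + 1) / γ := by ring
  rw [h3] at h1
  have h4 : (Lam γ).im + Real.pi / 2 = (Lam γ).im - -(Real.pi / 2) := by ring
  rw [h4]
  exact h1

theorem lam_im_tendsto : Tendsto (fun γ : ℝ => (Lam γ).im) atTop (𝓝 (-(Real.pi / 2))) := by
  have h1 : Tendsto (fun γ : ℝ => 10 * (Real.exp (Real.exp 1) + 1) / γ) atTop (𝓝 0) :=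
    tendsto_const_nhds.div_atTop tendsto_id
  have h2 : Tendsto (fun γ : ℝ => (Lam γ).im + Real.pi / 2) atTop (𝓝 0) := by
    refine squeeze_zero_norm' ?_ h1
    filter_upwards [eventually_ge_atTop (2 * Real.pi)] with γ hγ
    rw [Real.norm_eq_abs]
    exact lam_im hγ
  have h3 := h2.add_const (-(Real.pi / 2))
  rw [zero_add] at h3
  refine h3.congr fun γ => ?_
  ring

end Pool.Agent.X298.PA
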