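import Pool.Agent.X298.ST.GLaw
import Pool.Agent.X298.ST.Main
import Pool.Agent.X298.ST.DDefs
import Mathlib.NumberTheory.LSeries.HurwitzZeta
import Mathlib.Analysis.SpecialFunctions.Gamma.Deligne

/-!
# Rotated sums with real coefficients, functional equations and orders
-/

set_option autoImplicit false

namespace Pool.Agent.X298.PA

open Complex Filter Topology Set
open IsDedekindDomain NumberField
open Pool.Agent.W189.ML Pool.Agent.W189.LC Pool.Agent.W187.UR Pool.Agent.X287.CR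
open Pool.Agent.X298.ST

/-! ### orders -/

theorem order_zero {f : ℂ → ℂ} {s : ℂ} (hf : AnalyticAt ℂ f s) (h : f s ≠ 0) : meromorphicOrderAt f s = 0 := by
  rw [hf.meromorphicOrderAt_eq, hf.analyticOrderAt_eq_zero.2 h]
  rfl

theorem order_one {f : ℂ → ℂ} {s : ℂ} (hf : AnalyticAt ℂ f s) (h : f s = 0) (h' : deriv f s ≠ 0) :
    meromorphicOrderAt f s = 1 := by
  rw [hf.meromorphicOrderAt_eq, hf.analyticOrderAt_eq_one_of_zero_deriv_ne_zero h h']
  rfl

theorem diff_gamma (k : ℕ) : Differentiable ℂ fun s : ℂ => (Gamma (s + k))⁻¹ :=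
  differentiable_one_div_Gamma.comp (differentiable_id.add_const _)

/-- the inverse Gamma factor at `0` -/
theorem order_gamma (k : ℕ) :
    meromorphicOrderAt (fun s : ℂ => (Gamma (s + k))⁻¹) 0 = if k = 0 then 1 else 0 := by
  split_ifs with h0
  · subst h0
    have e1 : (fun s : ℂ => (Gamma (s + (0 : ℕ)))⁻¹) = fun s : ℂ => s * (Gamma (s + (1 : ℕ)))⁻¹ := by
      funext s
      by_cases hs : s = 0
      · subst hs
        simp
      · push_cast
        rw [add_zero, Complex.Gamma_add_one s hs, mul_inv, ← mul_assoc, mul_inv_cancel₀ hs, one_mul]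
    rw [e1, fun_meromorphicOrderAt_mul (f := fun s : ℂ => s) (analyticAt_id.meromorphicAt)
      ((diff_gamma 1).analyticAt 0).meromorphicAt,
      order_zero (f := fun s : ℂ => (Gamma (s + (1 : ℕ)))⁻¹) ((diff_gamma 1).analyticAt 0) (by simp), add_zero]
    refine order_one (f := fun s : ℂ => s) analyticAt_id rfl ?_
    simp
  · refine order_zero ((diff_gamma k).analyticAt 0) (inv_ne_zero ?_)
    rw [zero_add]
    refine Complex.Gamma_ne_zero_of_re_pos ?_
    rw [natCast_re]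
    exact_mod_cast Nat.pos_of_ne_zero h0

theorem euler_deriv (β : ℂ) {q : ℕ} (hq : 2 ≤ q) (s : ℂ) : HasDerivAt (fun s : ℂ => 1 - β * (q : ℂ) ^ (-s))
    (β * (q : ℂ) ^ (-s) * log (q : ℂ)) s := by
  have hp : (q : ℂ) ≠ 0 := by
    have : q ≠ 0 := by omega
    exact_mod_cast this
  have h1 := ((hasDerivAt_neg s).const_cpow (c := (q : ℂ)) (Or.inl hp)).const_mul β
  have h2 := h1.const_sub 1
  refine h2.congr_deriv ?_
  ring

theorem diff_euler (β : ℂ) {q : ℕ} (hq : 2 ≤ q) : Differentiable ℂ fun s : ℂ => 1 - β * (q : ℂ) ^ (-s) :=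
  fun s => (euler_deriv β hq s).differentiableAt

/-- an Euler factor -/
theorem order_euler (β : ℂ) {q : ℕ} (hq : 2 ≤ q) (s₀ : ℂ) :
    meromorphicOrderAt (fun s => 1 - β * (q : ℂ) ^ (-s)) s₀ =
      open Classical in if β * (q : ℂ) ^ (-s₀) = 1 then 1 else 0 := by
  have han : AnalyticAt ℂ (fun s : ℂ => 1 - β * (q : ℂ) ^ (-s)) s₀ := (diff_euler β hq).analyticAt s₀
  split_ifs with h0
  · refine order_one han (by rw [h0, sub_self]) ?_
    rw [(euler_deriv β hq s₀).deriv, h0, one_mul, ← Complex.natCast_log]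
    have : 0 < Real.log q := Real.log_pos (by exact_mod_cast (by omega : 1 < q))
    exact_mod_cast this.ne'
  · exact order_zero han fun h1 => h0 (sub_eq_zero.1 h1).symm

theorem sum_ite {J : Type} [Fintype J] (P : J → Prop) (inst : DecidablePred P) :
    (∑ j : J, (if P j then (1 : WithTop ℤ) else 0)) = (((Finset.univ.filter P).card : ℤ) : WithTop ℤ) := by
  rw [Finset.sum_ite, Finset.sum_const_zero, add_zero, Finset.sum_const, nsmul_one]
  rfl

/-- the continuation of the Dirichlet series from the functional equation -/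
noncomputable def DD {J : Type} [Fintype J] (β : J → ℂ) (q : J → ℕ) {n : ℕ} (κ : Fin n → ℕ) (N : ℝ) (Λ : ℂ → ℂ)
    (s : ℂ) : ℂ :=
  (Λ s * ∏ j, (1 - β j * (q j : ℂ) ^ (-s))) * ((N : ℂ) ^ (-s / 2) *
    ∏ i, ((2 * Real.pi : ℂ) ^ s * (Gamma (s + κ i))⁻¹))

section FE

variable {J : Type} [Fintype J] {β : J → ℂ} {q : J → ℕ} {n : ℕ} {κ : Fin n → ℕ} {N : ℝ} {Λ E : ℂ → ℂ}

theorem two_pi_ne : (2 * Real.pi : ℂ) ≠ 0 := by
  have : (2 * Real.pi : ℝ) ≠ 0 := by positivity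
  exact_mod_cast this

theorem diff_power (hN : 0 < N) : Differentiable ℂ fun s : ℂ => (N : ℂ) ^ (-s / 2) := by
  have hN' : (N : ℂ) ≠ 0 := by exact_mod_cast hN.ne'
  have h1 : Differentiable ℂ fun s : ℂ => -s / 2 := by fun_prop
  intro s
  exact (h1 s).const_cpow (Or.inl hN')

theorem diff_two_pi : Differentiable ℂ fun s : ℂ => (2 * Real.pi : ℂ) ^ s := fun s =>
  (differentiableAt_id).const_cpow (Or.inl two_pi_ne)

theorem diff_DD (hq : ∀ j, 2 ≤ q j) (hN : 0 < N) (hΛ : Differentiable ℂ Λ) : Differentiable ℂ (DD β q κ N Λ) := by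
  unfold DD
  refine (hΛ.mul (Differentiable.fun_finsetProd fun j _ => diff_euler (β j) (hq j))).mul ((diff_power hN).mul
    (Differentiable.fun_finsetProd fun i _ => diff_two_pi.mul (diff_gamma (κ i))))

theorem DD_eq (hN : 0 < N) (heq : ∀ s : ℂ, 3 / 2 < s.re → Λ s * ∏ j, (1 - β j * (q j : ℂ) ^ (-s)) =
      ((N : ℂ) ^ (s / 2) * ∏ i, ((2 * Real.pi : ℂ) ^ (-s) * Gamma (s + κ i))) * exp (E s)) {s : ℂ}
    (hs : 3 / 2 < s.re) : DD β q κ N Λ s = exp (E s) := by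
  have hN' : (N : ℂ) ≠ 0 := by exact_mod_cast hN.ne'
  unfold DD
  rw [heq s hs]
  have h1 : (N : ℂ) ^ (s / 2) * (N : ℂ) ^ (-s / 2) = 1 := by
    rw [← Complex.cpow_add _ _ hN']
    have : s / 2 + -s / 2 = 0 := by ring
    rw [this, Complex.cpow_zero]
  have h2 : (∏ i, ((2 * Real.pi : ℂ) ^ (-s) * Gamma (s + κ i))) *
      ∏ i, ((2 * Real.pi : ℂ) ^ s * (Gamma (s + κ i))⁻¹) = 1 := by
    rw [← Finset.prod_mul_distrib]
    refine Finset.prod_eq_one fun i _ => ?_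
    have h3 : (2 * Real.pi : ℂ) ^ (-s) * (2 * Real.pi : ℂ) ^ s = 1 := by
      rw [← Complex.cpow_add _ _ two_pi_ne, neg_add_cancel, Complex.cpow_zero]
    have h4 : Gamma (s + κ i) ≠ 0 := by
      refine Complex.Gamma_ne_zero_of_re_pos ?_
      rw [add_re, natCast_re]
      have : (0 : ℝ) ≤ κ i := Nat.cast_nonneg _
      linarith
    calc _ = ((2 * Real.pi : ℂ) ^ (-s) * (2 * Real.pi : ℂ) ^ s) * (Gamma (s + κ i) * (Gamma (s + κ i))⁻¹) := by ring
      _ = 1 := by rw [h3, mul_inv_cancel₀ h4, one_mul]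
  calc _ = ((N : ℂ) ^ (s / 2) * (N : ℂ) ^ (-s / 2)) * ((∏ i, ((2 * Real.pi : ℂ) ^ (-s) * Gamma (s + κ i))) *
      ∏ i, ((2 * Real.pi : ℂ) ^ s * (Gamma (s + κ i))⁻¹)) * exp (E s) := by ring
    _ = exp (E s) := by rw [h1, h2, one_mul, one_mul]

theorem lam_zero (hN : 0 < N) (heq : ∀ s : ℂ, 3 / 2 < s.re → Λ s * ∏ j, (1 - β j * (q j : ℂ) ^ (-s)) =
      ((N : ℂ) ^ (s / 2) * ∏ i, ((2 * Real.pi : ℂ) ^ (-s) * Gamma (s + κ i))) * exp (E s)) {ε : ℂ}
    (hfe : ∀ s : ℂ, Λ (2 - s) = ε * Λ s) : Λ 0 ≠ 0 := by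
  intro h0
  have h1 := hfe 0
  rw [h0, mul_zero, sub_zero] at h1
  have hs : 3 / 2 < (2 : ℂ).re := by norm_num
  have h2 := DD_eq (β := β) (q := q) (κ := κ) hN heq hs
  unfold DD at h2
  rw [h1, zero_mul, zero_mul] at h2
  exact Complex.exp_ne_zero _ h2.symm

open Classical in
/-- the order at `0` -/
theorem order_DD (hq : ∀ j, 2 ≤ q j) (hN : 0 < N) (hΛ : Differentiable ℂ Λ)
    (heq : ∀ s : ℂ, 3 / 2 < s.re → Λ s * ∏ j, (1 - β j * (q j : ℂ) ^ (-s)) =
      ((N : ℂ) ^ (s / 2) * ∏ i, ((2 * Real.pi : ℂ) ^ (-s) * Gamma (s + κ i))) * exp (E s)) {ε : ℂ}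
    (hfe : ∀ s : ℂ, Λ (2 - s) = ε * Λ s) :
    meromorphicOrderAt (DD β q κ N Λ) 0 =
      (((Finset.univ.filter fun j => β j = 1).card + (Finset.univ.filter fun i => κ i = 0).card : ℕ) : ℤ) := by
  have hN' : (N : ℂ) ≠ 0 := by exact_mod_cast hN.ne'
  have hm1 : ∀ j, MeromorphicAt (fun s : ℂ => 1 - β j * (q j : ℂ) ^ (-s)) 0 := fun j =>
    ((diff_euler (β j) (hq j)).analyticAt _).meromorphicAt
  have hm2 : ∀ i : Fin n, MeromorphicAt (fun s : ℂ => (2 * Real.pi : ℂ) ^ s * (Gamma (s + κ i))⁻¹) 0 := fun i =>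
    ((diff_two_pi.mul (diff_gamma (κ i))).analyticAt _).meromorphicAt
  have hm3 : MeromorphicAt (fun s : ℂ => (N : ℂ) ^ (-s / 2)) 0 := ((diff_power hN).analyticAt _).meromorphicAt
  have hm4 : MeromorphicAt Λ 0 := (hΛ.analyticAt _).meromorphicAt
  have hm5 : MeromorphicAt (fun s : ℂ => ∏ j, (1 - β j * (q j : ℂ) ^ (-s))) 0 := MeromorphicAt.fun_prod fun j _ => hm1 j
  have hm6 : MeromorphicAt (fun s : ℂ => ∏ i, ((2 * Real.pi : ℂ) ^ s * (Gamma (s + κ i))⁻¹)) 0 :=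
    MeromorphicAt.fun_prod fun i _ => hm2 i
  have e0 : DD β q κ N Λ = fun s => (Λ s * ∏ j, (1 - β j * (q j : ℂ) ^ (-s))) * ((N : ℂ) ^ (-s / 2) *
    ∏ i, ((2 * Real.pi : ℂ) ^ s * (Gamma (s + κ i))⁻¹)) := rfl
  rw [e0, fun_meromorphicOrderAt_mul (hm4.fun_mul hm5) (hm3.fun_mul hm6), fun_meromorphicOrderAt_mul hm4 hm5,
    fun_meromorphicOrderAt_mul hm3 hm6, order_zero (hΛ.analyticAt _) (lam_zero (β := β) (q := q) (κ := κ) hN heq hfe),
    order_zero ((diff_power hN).analyticAt _) (by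
      rw [neg_zero, zero_div, Complex.cpow_zero]
      exact one_ne_zero), zero_add, zero_add, meromorphicOrderAt_fun_prod fun j _ => hm1 j,
    meromorphicOrderAt_fun_prod fun i _ => hm2 i]
  have e1 : (∑ j, meromorphicOrderAt (fun s : ℂ => 1 - β j * (q j : ℂ) ^ (-s)) 0) =
      (((Finset.univ.filter fun j => β j = 1).card : ℤ) : WithTop ℤ) := by
    rw [← sum_ite]
    refine Finset.sum_congr rfl fun j _ => ?_
    rw [order_euler _ (hq j)]
    simp only [neg_zero, Complex.cpow_zero, mul_one]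
  have e2 : (∑ i, meromorphicOrderAt (fun s : ℂ => (2 * Real.pi : ℂ) ^ s * (Gamma (s + κ i))⁻¹) 0) =
      (((Finset.univ.filter fun i => κ i = 0).card : ℤ) : WithTop ℤ) := by
    rw [← sum_ite]
    refine Finset.sum_congr rfl fun i _ => ?_
    rw [fun_meromorphicOrderAt_mul (diff_two_pi.analyticAt _).meromorphicAt ((diff_gamma (κ i)).analyticAt _).meromorphicAt,
      order_zero (diff_two_pi.analyticAt _) (by rw [Complex.cpow_zero]; exact one_ne_zero), zero_add, order_gamma]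
  rw [e1, e2]
  push_cast
  rfl

end FE

/-! ### the phase of the constant -/

theorem norm_log_one_add {w : ℂ} (h : 1 / 2 ≤ (1 + w).re) : ‖log (1 + w)‖ ≤ 2 * ‖w‖ := by
  have hconv : Convex ℝ {z : ℂ | 1 / 2 ≤ z.re} := convex_halfSpace_re_ge _
  have hd : ∀ z ∈ {z : ℂ | 1 / 2 ≤ z.re}, HasDerivWithinAt log z⁻¹ {z : ℂ | 1 / 2 ≤ z.re} z := by
    intro z hz
    have hz' : 1 / 2 ≤ z.re := hz
    exact (hasDerivAt_log (by
      rw [Complex.mem_slitPlane_iff]
      left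
      linarith)).hasDerivWithinAt
  have hb : ∀ z ∈ {z : ℂ | 1 / 2 ≤ z.re}, ‖z⁻¹‖ ≤ 2 := by
    intro z hz
    have hz' : 1 / 2 ≤ z.re := hz
    rw [norm_inv]
    have h1 : 1 / 2 ≤ ‖z‖ := hz'.trans (Complex.re_le_norm z)
    rw [inv_le_comm₀ (by linarith) (by norm_num)]
    linarith
  have h1 := hconv.norm_image_sub_le_of_norm_hasDerivWithin_le hd hb (x := 1) (y := 1 + w)
    (by simp only [mem_setOf_eq, one_re]; norm_num) h
  rw [log_one, sub_zero, add_sub_cancel_left] at h1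
  exact h1

end Pool.Agent.X298.PA
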