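import Pool.Agent.X298.PA.ZDefs
import Pool.Agent.X298.PA.Base

/-!
# The real zeros of a function with a functional equation
-/

set_option autoImplicit false

namespace Pool.Agent.X298.PA

open Complex Filter Topology Set

variable {Λ : ℂ → ℂ} {c : ℝ} {w : ℤ}

theorem order_symm (hΛ : ∀ s : ℂ, Λ (2 * c - s) = w * Λ s) (hw : w ≠ 0) (x : ℂ) :
    analyticOrderAt Λ (2 * c - x) = analyticOrderAt Λ x := by
  have hd : HasDerivAt (fun s : ℂ => 2 * (c : ℂ) - s) (-1) x := (hasDerivAt_id x).const_sub _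
  have h1 := analyticOrderAt_comp_of_deriv_ne_zero (f := Λ) (g := fun s : ℂ => 2 * (c : ℂ) - s) (z₀ := x)
    (by fun_prop) (by rw [hd.deriv]; norm_num)
  rw [← h1]
  have e1 : (Λ ∘ fun s : ℂ => 2 * (c : ℂ) - s) = fun s => (w : ℂ) * Λ s := funext fun s => hΛ s
  rw [e1]
  have hw' : (w : ℂ) ≠ 0 := by exact_mod_cast hw
  by_cases h : AnalyticAt ℂ Λ x
  · have h2 : (fun s => (w : ℂ) * Λ s) = (fun _ : ℂ => (w : ℂ)) * Λ := rfl
    rw [h2, analyticOrderAt_mul analyticAt_const h, (analyticAt_const (v := (w : ℂ))).analyticOrderAt_eq_zero.2 hw',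
      zero_add]
  · rw [analyticOrderAt_of_not_analyticAt h, analyticOrderAt_of_not_analyticAt]
    intro h2
    apply h
    have h3 := (analyticAt_const (v := (w : ℂ)⁻¹)).mul h2
    refine h3.congr ?_
    refine Eventually.of_forall fun s => ?_
    simp only [Pi.mul_apply]
    rw [← mul_assoc, inv_mul_cancel₀ hw', one_mul]

theorem order_ne_top (h : Differentiable ℂ Λ) {z : ℂ} (hz : Λ z ≠ 0) (x : ℂ) : analyticOrderAt Λ x ≠ ⊤ := by
  intro h1
  rw [analyticOrderAt_eq_top] at h1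
  have h2 : AnalyticOnNhd ℂ Λ univ := fun z _ => h.analyticAt z
  have h3 := h2.eqOn_zero_of_preconnected_of_eventuallyEq_zero isPreconnected_univ (mem_univ x) h1
  exact hz (h3 (mem_univ z))

/-- the sign of the functional equation -/
theorem parity (h : Differentiable ℂ Λ) (hΛ : ∀ s : ℂ, Λ (2 * c - s) = w * Λ s) {z : ℂ} (hz : Λ z ≠ 0) :
    (-1 : ℤ) ^ analyticOrderNatAt Λ (c : ℂ) = w := by
  have hc : (2 * (c : ℂ) - c) = c := by ring
  have han : AnalyticAt ℂ Λ (c : ℂ) := h.analyticAt _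
  obtain ⟨g, hg, hg0, hgc⟩ := (han.analyticOrderAt_eq_natCast (n := analyticOrderNatAt Λ (c : ℂ))).1
    (Nat.cast_analyticOrderNatAt (order_ne_top h hz _)).symm
  set m := analyticOrderNatAt Λ (c : ℂ) with hm
  have hcont : ContinuousAt (fun s : ℂ => 2 * (c : ℂ) - s) (c : ℂ) := by fun_prop
  have ht : Tendsto (fun s : ℂ => 2 * (c : ℂ) - s) (𝓝 (c : ℂ)) (𝓝 (c : ℂ)) := by
    have := hcont.tendsto
    rwa [hc] at this
  have h1 : ∀ᶠ s in 𝓝[≠] (c : ℂ), (-1 : ℂ) ^ m * g (2 * c - s) = w * g s := by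
    have h2 := (ht.eventually hgc).and hgc
    filter_upwards [h2.filter_mono nhdsWithin_le_nhds, self_mem_nhdsWithin] with s hs hs0
    obtain ⟨h3, h4⟩ := hs
    rw [hΛ, h4] at h3
    have h5 : (s - c : ℂ) ^ m ≠ 0 := pow_ne_zero _ (sub_ne_zero.2 hs0)
    have h6 : (2 * (c : ℂ) - s - c) ^ m = (-1) ^ m * (s - c) ^ m := by
      rw [← mul_pow]
      congr 1
      ring
    rw [h6] at h3
    simp only [smul_eq_mul] at h3
    have h7 : (s - c : ℂ) ^ m * ((-1 : ℂ) ^ m * g (2 * c - s)) = (s - c : ℂ) ^ m * (w * g s) := by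
      linear_combination -h3
    exact mul_left_cancel₀ h5 h7
  have h2 : Tendsto (fun s => (-1 : ℂ) ^ m * g (2 * c - s)) (𝓝[≠] (c : ℂ)) (𝓝 ((-1 : ℂ) ^ m * g c)) :=
    ((hg.continuousAt.tendsto.comp ht).const_mul _).mono_left nhdsWithin_le_nhds
  have h3 : Tendsto (fun s => (w : ℂ) * g s) (𝓝[≠] (c : ℂ)) (𝓝 ((w : ℂ) * g c)) :=
    (hg.continuousAt.tendsto.const_mul _).mono_left nhdsWithin_le_nhds
  have h4 := tendsto_nhds_unique (h2.congr' h1) h3
  have h5 := mul_right_cancel₀ hg0 h4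
  exact_mod_cast h5

theorem w_ne (hΛ : ∀ s : ℂ, Λ (2 * c - s) = w * Λ s) {z : ℂ} (hz : Λ z ≠ 0) : w ≠ 0 := by
  intro h0
  have h1 := hΛ (2 * c - z)
  rw [h0, Int.cast_zero, zero_mul, sub_sub_cancel] at h1
  exact hz h1

/-- the count of the real zeros -/
theorem count (h : Differentiable ℂ Λ) (hΛ : ∀ s : ℂ, Λ (2 * c - s) = w * Λ s) {z : ℂ} (hz : Λ z ≠ 0)
    (hfin : {x : ℝ | c < x ∧ Λ x = 0}.Finite) :
    {x : ℝ | Λ x = 0}.Finite ∧ realZeros Λ = analyticOrderNatAt Λ (c : ℂ) +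
      2 * ∑ᶠ x ∈ Ioi c, analyticOrderNatAt Λ ((x : ℝ) : ℂ) := by
  have hw := w_ne hΛ hz
  set f : ℝ → ℕ := fun x => analyticOrderNatAt Λ (x : ℂ) with hf
  have hsym : ∀ x : ℝ, f (2 * c - x) = f x := by
    intro x
    rw [hf]
    simp only
    have := order_symm hΛ hw (x : ℂ)
    unfold analyticOrderNatAt
    push_cast
    rw [this]
  have hz0 : ∀ x : ℝ, Λ (2 * c - x : ℝ) = 0 ↔ Λ x = 0 := by
    intro x
    have hw' : (w : ℂ) ≠ 0 := by exact_mod_cast hw
    push_cast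
    rw [hΛ, mul_eq_zero]
    exact ⟨fun h1 => h1.resolve_left hw', Or.inr⟩
  have himg : Iio c = (fun x : ℝ => 2 * c - x) '' Ioi c := by
    rw [Set.image_const_sub_Ioi]
    congr 1
    ring
  have hfin2 : {x : ℝ | x < c ∧ Λ x = 0}.Finite := by
    refine (hfin.image fun x : ℝ => 2 * c - x).subset ?_
    rintro x ⟨hx, hx0⟩
    refine ⟨2 * c - x, ⟨by linarith, (hz0 x).2 hx0⟩, ?_⟩
    simp only
    ring
  have hall : {x : ℝ | Λ x = 0}.Finite := by
    refine ((hfin2.union hfin).union (finite_singleton c)).subset ?_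
    intro x hx
    rcases lt_trichotomy x c with h1 | h1 | h1
    · exact Or.inl (Or.inl ⟨h1, hx⟩)
    · exact Or.inr h1
    · exact Or.inl (Or.inr ⟨h1, hx⟩)
  have hsupp : Function.support f ⊆ {x : ℝ | Λ x = 0} := fun x hx =>
    apply_eq_zero_of_analyticOrderNatAt_ne_zero hx
  have hsf : ∀ s : Set ℝ, (s ∩ Function.support f).Finite := fun s =>
    (hall.subset hsupp).subset inter_subset_right
  refine ⟨hall, ?_⟩
  have hu : (univ : Set ℝ) = (Iio c ∪ {c}) ∪ Ioi c := by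
    ext x
    simp only [mem_univ, mem_union, mem_Iio, mem_singleton_iff, mem_Ioi, true_iff]
    rcases lt_trichotomy x c with h1 | h1 | h1
    · exact Or.inl (Or.inl h1)
    · exact Or.inl (Or.inr h1)
    · exact Or.inr h1
  have hr : realZeros Λ = ∑ᶠ x ∈ (univ : Set ℝ), f x := by
    unfold realZeros
    rw [finsum_mem_univ]
  rw [hr, hu, finsum_mem_union' (by
      rw [Set.disjoint_left]
      rintro x (h1 | h1) h2
      · exact lt_asymm (mem_Iio.1 h1) (mem_Ioi.1 h2)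
      · rw [mem_singleton_iff] at h1
        rw [h1] at h2
        exact lt_irrefl _ (mem_Ioi.1 h2)) (hsf _) (hsf _),
    finsum_mem_union' (by
      rw [Set.disjoint_left]
      intro x h1 h2
      rw [mem_singleton_iff] at h2
      rw [h2] at h1
      exact lt_irrefl _ (mem_Iio.1 h1)) (hsf _) (hsf _), finsum_mem_singleton]
  have hleft : ∑ᶠ x ∈ Iio c, f x = ∑ᶠ x ∈ Ioi c, f x := by
    rw [himg, finsum_mem_image (fun a _ b _ (hab : 2 * c - a = 2 * c - b) => by linarith)]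
    exact finsum_mem_congr rfl fun x _ => hsym x
  rw [hleft]
  ring

end Pool.Agent.X298.PA
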