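import Pool.Agent.X298.PA.NFDefs
import Pool.Agent.X298.PA.Zeros
import Pool.Agent.X298.PA.Phase
import Pool.Agent.W187.UR.NF

/-!
# Elliptic curves over number fields: real zeros from point counts
-/

set_option autoImplicit false

open Complex Filter Topology Set
open IsDedekindDomain NumberField

namespace Pool.Agent.X298.PA.NF

open Pool.Agent.X298.PA

variable {K : Type} [Field K] [NumberField K]

theorem coeff_one (a e : ℤ) : (1 - Polynomial.C a * Polynomial.X + Polynomial.C e *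
    Polynomial.X ^ 2 : Polynomial ℤ).coeff 1 = -a := by
  rw [Polynomial.coeff_add, Polynomial.coeff_sub, Polynomial.coeff_C_mul, Polynomial.coeff_C_mul,
    Polynomial.coeff_X_one, Polynomial.coeff_X_pow, Polynomial.coeff_one]
  norm_num

theorem coeff_two (a e : ℤ) : (1 - Polynomial.C a * Polynomial.X + Polynomial.C e *
    Polynomial.X ^ 2 : Polynomial ℤ).coeff 2 = e := by
  rw [Polynomial.coeff_add, Polynomial.coeff_sub, Polynomial.coeff_C_mul, Polynomial.coeff_C_mul,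
    Polynomial.coeff_X, Polynomial.coeff_X_pow, Polynomial.coeff_one]
  norm_num

theorem powerSum_eq (E : WeierstrassCurve K) (v : HeightOneSpectrum (𝓞 K)) (n : ℕ) :
    powerSum (localPoly E v) n = Pool.Agent.W189.LC.psum (Pool.Agent.W189.NF.aV E v)
      (Pool.Agent.W189.NF.eV E v) n := by
  have h := Pool.Agent.W189.NF.localPolynomial_eq (v.adicCompletionIntegers K)
    (E.baseChange (v.adicCompletion K))
  have h1 : (localPoly E v).coeff 1 = -Pool.Agent.W189.NF.aV E v := by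
    unfold localPoly
    rw [h]
    exact coeff_one _ _
  have h2 : (localPoly E v).coeff 2 = Pool.Agent.W189.NF.eV E v := by
    unfold localPoly
    rw [h]
    exact coeff_two _ _
  induction n using Nat.twoStepInduction with
  | zero => simp [powerSum, Pool.Agent.W189.LC.psum]
  | one => simp [powerSum, Pool.Agent.W189.LC.psum, h1]
  | more n ih1 ih2 =>
    simp only [powerSum, Pool.Agent.W189.LC.psum]
    rw [ih1, ih2, h1, h2]
    ring

theorem sTerm_eq (E : WeierstrassCurve K) (γ T : ℝ) (x : HeightOneSpectrum (𝓞 K) × ℕ) :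
    sTerm E γ T x = (Pool.Agent.W187.UR.rTerm E γ T x).im := by
  unfold sTerm Pool.Agent.W187.UR.rTerm Pool.Agent.W189.NF.bsTerm q
  rw [powerSum_eq, Complex.im_ofReal_mul, Complex.exp_ofReal_mul_I_im]
  ring

theorem rTerm_summable (E : WeierstrassCurve K) (γ : ℝ) {T : ℝ} (hT : 0 < T) :
    Summable fun x => ‖Pool.Agent.W187.UR.rTerm E γ T x‖ :=
  (Pool.Agent.W189.NF.bsTerm_summable E hT).congr fun x => (Pool.Agent.W187.UR.norm_rTerm E γ T x).symm

theorem sTerm_summable (E : WeierstrassCurve K) (γ : ℝ) {T : ℝ} (hT : 0 < T) :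
    Summable fun x => |sTerm E γ T x| := by
  refine Summable.of_nonneg_of_le (fun x => abs_nonneg _) (fun x => ?_) (rTerm_summable E γ hT)
  rw [sTerm_eq]
  exact Complex.abs_im_le_norm _

theorem sSum_eq (E : WeierstrassCurve K) (γ : ℝ) {T : ℝ} (hT : 0 < T) :
    sSum E γ T = (Pool.Agent.W187.UR.rSum E γ T).im := by
  unfold sSum Pool.Agent.W187.UR.rSum
  rw [Complex.im_tsum (rTerm_summable E γ hT).of_norm]
  exact tsum_congr fun x => sTerm_eq E γ T x

/-- the continuation -/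
noncomputable def FF (N : ℝ) (n : ℕ) (Λ : ℂ → ℂ) (s : ℂ) : ℂ :=
  Λ s * ((N : ℂ) ^ (-s / 2) * ((2 * Real.pi : ℂ) ^ s * (Gamma s)⁻¹) ^ n)

theorem diff_factor {N : ℝ} (hN : 0 < N) (n : ℕ) :
    Differentiable ℂ fun s : ℂ => (N : ℂ) ^ (-s / 2) * ((2 * Real.pi : ℂ) ^ s * (Gamma s)⁻¹) ^ n :=
  (diff_power hN).mul ((diff_two_pi.mul differentiable_one_div_Gamma).pow n)

theorem factor_ne {N : ℝ} (hN : 0 < N) (n : ℕ) {s : ℂ} (hs : 0 < s.re) :
    (N : ℂ) ^ (-s / 2) * ((2 * Real.pi : ℂ) ^ s * (Gamma s)⁻¹) ^ n ≠ 0 := by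
  have hN' : (N : ℂ) ≠ 0 := by exact_mod_cast hN.ne'
  refine mul_ne_zero ?_ (pow_ne_zero _ (mul_ne_zero ?_ (inv_ne_zero (Complex.Gamma_ne_zero_of_re_pos hs))))
  · rw [Complex.cpow_def_of_ne_zero hN']
    exact Complex.exp_ne_zero _
  · rw [Complex.cpow_def_of_ne_zero two_pi_ne]
    exact Complex.exp_ne_zero _

theorem order_FF {N : ℝ} (hN : 0 < N) (n : ℕ) {Λ : ℂ → ℂ} (hΛ : Differentiable ℂ Λ) {s : ℂ} (hs : 0 < s.re) :
    meromorphicOrderAt (FF N n Λ) s = meromorphicOrderAt Λ s := by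
  have e0 : FF N n Λ = fun s => Λ s * ((N : ℂ) ^ (-s / 2) * ((2 * Real.pi : ℂ) ^ s * (Gamma s)⁻¹) ^ n) := rfl
  rw [e0, fun_meromorphicOrderAt_mul (hΛ.analyticAt s).meromorphicAt ((diff_factor hN n).analyticAt s).meromorphicAt,
    order_zero ((diff_factor hN n).analyticAt s) (factor_ne hN n hs), add_zero]

theorem FF_eq {N : ℝ} (hN : 0 < N) (n : ℕ) {Λ L : ℂ → ℂ} {s : ℂ} (hs : 2 < s.re)
    (h : Λ s = ((N : ℂ) ^ (s / 2) * ((2 * Real.pi : ℂ) ^ (-s) * Gamma s) ^ n) * L s) : FF N n Λ s = L s := by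
  have hN' : (N : ℂ) ≠ 0 := by exact_mod_cast hN.ne'
  unfold FF
  rw [h]
  have h1 : (N : ℂ) ^ (s / 2) * (N : ℂ) ^ (-s / 2) = 1 := by
    rw [← Complex.cpow_add _ _ hN']
    have : s / 2 + -s / 2 = 0 := by ring
    rw [this, Complex.cpow_zero]
  have h2 : ((2 * Real.pi : ℂ) ^ (-s) * Gamma s) ^ n * ((2 * Real.pi : ℂ) ^ s * (Gamma s)⁻¹) ^ n = 1 := by
    rw [← mul_pow]
    have h3 : (2 * Real.pi : ℂ) ^ (-s) * (2 * Real.pi : ℂ) ^ s = 1 := by
      rw [← Complex.cpow_add _ _ two_pi_ne, neg_add_cancel, Complex.cpow_zero]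
    have h4 : Gamma s ≠ 0 := Complex.Gamma_ne_zero_of_re_pos (by linarith)
    have h5 : (2 * Real.pi : ℂ) ^ (-s) * Gamma s * ((2 * Real.pi : ℂ) ^ s * (Gamma s)⁻¹) = 1 := by
      calc _ = ((2 * Real.pi : ℂ) ^ (-s) * (2 * Real.pi : ℂ) ^ s) * (Gamma s * (Gamma s)⁻¹) := by ring
        _ = 1 := by rw [h3, mul_inv_cancel₀ h4, one_mul]
    rw [h5, one_pow]
  calc _ = ((N : ℂ) ^ (s / 2) * (N : ℂ) ^ (-s / 2)) * (((2 * Real.pi : ℂ) ^ (-s) * Gamma s) ^ n *
      ((2 * Real.pi : ℂ) ^ s * (Gamma s)⁻¹) ^ n) * L s := by ring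
    _ = L s := by rw [h1, h2, one_mul, one_mul]

theorem mero_order {Λ : ℂ → ℂ} (hΛ : Differentiable ℂ Λ) {z : ℂ} (hz : Λ z ≠ 0) (x : ℂ) :
    meromorphicOrderAt Λ x = ((analyticOrderNatAt Λ x : ℤ) : WithTop ℤ) := by
  rw [(hΛ.analyticAt x).meromorphicOrderAt_eq, ← Nat.cast_analyticOrderNatAt (order_ne_top hΛ hz x)]
  rfl

/-- **the real zeros** -/
theorem main {E : WeierstrassCurve K} {w : ℤ} {Λ : ℂ → ℂ} (h : HasseWeil E w Λ) :
    {x : ℝ | Λ x = 0}.Finite ∧ (-1 : ℤ) ^ realZeros Λ = w ∧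
    ∃ ℓ : ℝ → ℝ, (∀ γ : ℝ, Real.pi / 2 < γ → Tendsto (fun T : ℝ => sSum E γ T) atTop (𝓝 (ℓ γ))) ∧
      (∀ γ : ℝ, 2 * Real.pi ≤ γ → |ℓ γ - Real.pi / 2 * realZeros Λ| ≤
        10 * (Real.exp (Real.exp 1) + 1) * analyticOrderNatAt Λ 1 / γ) ∧
      Tendsto ℓ atTop (𝓝 (Real.pi / 2 * realZeros Λ)) := by
  obtain ⟨N, hN, heq⟩ := h.eq
  set n := Module.finrank ℚ K with hn
  set F : ℂ → ℂ := FF N n Λ with hF
  have hFd : Differentiable ℂ F := h.entire.mul (diff_factor hN n)
  have hcont : Pool.Agent.W189.NF.IsCont E F :=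
    ⟨fun x _ _ => (hFd.analyticAt _).meromorphicAt, fun s hs => FF_eq hN n hs (heq s hs)⟩
  have E' := Pool.Agent.W189.NF.nfEP E
  -- a point where `Λ` does not vanish
  have hright : ∀ x : ℝ, 2 < x → Λ x ≠ 0 := by
    intro x hx h0
    have h1 := E'.order_right hcont.mero hcont.prod hx
    rw [hF, order_FF hN n h.entire (by rw [ofReal_re]; linarith), (h.entire.analyticAt _).meromorphicOrderAt_eq] at h1
    have h2 : analyticOrderAt Λ (x : ℂ) = 0 := by
      cases hh : analyticOrderAt Λ (x : ℂ) with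
      | top => rw [hh] at h1; exact absurd h1 (by simp)
      | coe k =>
        rw [hh] at h1
        have h3 : ((k : ℤ) : WithTop ℤ) = 0 := h1
        have h4 : k = 0 := by exact_mod_cast h3
        rw [h4]
        rfl
    exact ((h.entire.analyticAt _).analyticOrderAt_eq_zero.1 h2) h0
  have hz : Λ ((3 : ℝ) : ℂ) ≠ 0 := hright 3 (by norm_num)
  have hfe : ∀ s : ℂ, Λ (2 * ((1 : ℝ) : ℂ) - s) = w * Λ s := by
    intro s
    rw [ofReal_one, mul_one]
    exact h.fe s
  -- finiteness of the zeros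
  have hfin : {x : ℝ | 1 < x ∧ Λ x = 0}.Finite := by
    have D := E'.mdata hcont.mero hcont.prod
    have h1 := D.finite_zeros
    refine (h1.image fun x => 1 + x).subset ?_
    rintro σ ⟨hσ1, hσ⟩
    have hσ2 : σ ≤ 2 := by
      by_contra h2
      push Not at h2
      exact hright σ h2 hσ
    refine ⟨σ - 1, ⟨⟨by linarith, by linarith⟩, ?_⟩, by ring⟩
    rw [Pool.Agent.W189.LC.order_shift]
    have e : 1 + (σ - 1) = σ := by ring
    rw [e, hF, order_FF hN n h.entire (by rw [ofReal_re]; linarith), mero_order h.entire hz]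
    intro h2
    have h3 : analyticOrderNatAt Λ (σ : ℂ) = 0 := by exact_mod_cast h2
    have h4 := Nat.cast_analyticOrderNatAt (order_ne_top h.entire hz (σ : ℂ))
    rw [h3, Nat.cast_zero] at h4
    exact ((h.entire.analyticAt _).analyticOrderAt_eq_zero.1 h4.symm) hσ
  obtain ⟨hall, hcount⟩ := count h.entire hfe hz hfin
  have hpar := parity h.entire hfe hz
  rw [ofReal_one] at hcount hpar
  set m := analyticOrderNatAt Λ 1 with hm
  set e := ∑ᶠ x ∈ Ioi (1 : ℝ), analyticOrderNatAt Λ ((x : ℝ) : ℂ) with he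
  have hsign : (-1 : ℤ) ^ realZeros Λ = w := by
    rw [hcount, pow_add, pow_mul]
    norm_num
    exact hpar
  refine ⟨hall, hsign, fun γ => -(m * (Pool.Agent.W187.UR.Lam γ).im) + Real.pi * e, ?_, ?_, ?_⟩
  · intro γ hγ
    obtain ⟨m', l, h1, -, -, h2, -⟩ := Pool.Agent.W187.UR.nf_rot hcont hγ
    have hmm : m' = m := by
      rw [hF, order_FF hN n h.entire (by simp), mero_order h.entire hz] at h1
      exact_mod_cast h1.symm
    have hex : Pool.Agent.W187.UR.excess F = (e : ℤ) := by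
      have hc : ((e : ℕ) : ℤ) = ∑ᶠ x ∈ Ioi (1 : ℝ), ((analyticOrderNatAt Λ ((x : ℝ) : ℂ) : ℕ) : ℤ) := by
        rw [he]
        refine (Nat.castAddMonoidHom ℤ).map_finsum_mem' ?_
        refine hall.subset ?_
        rintro x ⟨-, hx⟩
        exact apply_eq_zero_of_analyticOrderNatAt_ne_zero hx
      rw [hc]
      unfold Pool.Agent.W187.UR.excess
      refine finsum_mem_congr rfl fun x hx => ?_
      rw [hF, order_FF hN n h.entire (by
        rw [ofReal_re]
        have : (1 : ℝ) < x := hx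
        linarith), mero_order h.entire hz]
      rfl
    have h3 : Tendsto (fun T : ℝ => Pool.Agent.W187.UR.rSum E γ T - (m' * (Real.log T - Pool.Agent.W187.UR.Lam γ) -
        Real.log |l| + Real.pi * Pool.Agent.W187.UR.excess F * Complex.I)) atTop (𝓝 0) :=
      h2.trans_tendsto (tendsto_const_nhds.div_atTop tendsto_id)
    have h4 := (Complex.continuous_im.tendsto 0).comp h3
    rw [Complex.zero_im] at h4
    have h5 := h4.add_const (-(m * (Pool.Agent.W187.UR.Lam γ).im) + Real.pi * e)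
    rw [zero_add] at h5
    refine h5.congr' ?_
    filter_upwards [eventually_gt_atTop (0 : ℝ)] with T hT
    rw [sSum_eq E γ hT]
    simp only [Function.comp_apply]
    rw [hmm, hex]
    simp
  · intro γ hγ
    have h1 := lam_im hγ
    have hπ := Real.pi_pos
    have hγ0 : 0 < γ := by linarith
    have h2 : -(m * (Pool.Agent.W187.UR.Lam γ).im) + Real.pi * e - Real.pi / 2 * realZeros Λ =
        -(m * ((Pool.Agent.W187.UR.Lam γ).im + Real.pi / 2)) := by
      rw [hcount]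
      push_cast
      ring
    rw [h2, abs_neg, abs_mul, abs_of_nonneg (Nat.cast_nonneg m)]
    calc (m : ℝ) * |(Pool.Agent.W187.UR.Lam γ).im + Real.pi / 2| ≤
        m * (10 * (Real.exp (Real.exp 1) + 1) / γ) := mul_le_mul_of_nonneg_left h1 (Nat.cast_nonneg m)
      _ = _ := by ring
  · have h1 : Tendsto (fun γ => -(m * (Pool.Agent.W187.UR.Lam γ).im) + Real.pi * e) atTop
        (𝓝 (-(m * (-(Real.pi / 2))) + Real.pi * e)) := ((lam_im_tendsto.const_mul _).neg).add_const _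
    have h2 : -(m * (-(Real.pi / 2))) + Real.pi * e = Real.pi / 2 * realZeros Λ := by
      rw [hcount]
      push_cast
      ring
    rw [h2] at h1
    exact h1

end Pool.Agent.X298.PA.NF
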