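import Pool.Agent.X298.PA.Zeros
import Pool.Agent.X298.PA.Phase
import Pool.Agent.W187.UR.NF

/-!
# The number of the real zeros from the imaginary parts of rotated sums: abstract form
-/

set_option autoImplicit false

open Complex Filter Topology Set

namespace Pool.Agent.X298.PA

open Pool.Agent.W189.LC (MData)
open Pool.Agent.W189.ML Pool.Agent.W187.UR

theorem mero_order {Λ : ℂ → ℂ} (hΛ : Differentiable ℂ Λ) {z : ℂ} (hz : Λ z ≠ 0) (x : ℂ) :
    meromorphicOrderAt Λ x = ((analyticOrderNatAt Λ x : ℤ) : WithTop ℤ) := by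
  rw [(hΛ.analyticAt x).meromorphicOrderAt_eq, ← Nat.cast_analyticOrderNatAt (order_ne_top hΛ hz x)]
  rfl

theorem ne_of_order {Λ : ℂ → ℂ} (hΛ : Differentiable ℂ Λ) {x : ℂ} (h1 : meromorphicOrderAt Λ x = 0) : Λ x ≠ 0 := by
  rw [(hΛ.analyticAt _).meromorphicOrderAt_eq] at h1
  have h2 : analyticOrderAt Λ x = 0 := by
    cases hh : analyticOrderAt Λ x with
    | top => rw [hh] at h1; exact absurd h1 (by simp)
    | coe k =>
      rw [hh] at h1
      have h3 : ((k : ℤ) : WithTop ℤ) = 0 := h1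
      have h4 : k = 0 := by exact_mod_cast h3
      rw [h4]
      rfl
  exact (hΛ.analyticAt _).analyticOrderAt_eq_zero.1 h2

variable {ι : Type} {lam c : ι → ℝ} {Φ Λ : ℂ → ℂ}

/-- **the number of the real zeros, abstract form** -/
theorem abs_main [Countable ι] (D : MData lam c Φ) (hΛ : Differentiable ℂ Λ)
    (hord : ∀ x : ℝ, 0 ≤ x → meromorphicOrderAt Φ (x : ℂ) = meromorphicOrderAt Λ (x : ℂ)) {w : ℤ}
    (hfe : ∀ s : ℂ, Λ (-s) = w * Λ s) :
    {x : ℝ | Λ x = 0}.Finite ∧ (-1 : ℤ) ^ realZeros Λ = w ∧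
    ∃ ℓ : ℝ → ℝ, (∀ γ : ℝ, Real.pi / 2 < γ → Tendsto (fun T : ℝ => -(cmean lam c γ T).im) atTop (𝓝 (ℓ γ))) ∧
      (∀ γ : ℝ, 2 * Real.pi ≤ γ → |ℓ γ - Real.pi / 2 * realZeros Λ| ≤
        10 * (Real.exp (Real.exp 1) + 1) * analyticOrderNatAt Λ 0 / γ) ∧
      Tendsto ℓ atTop (𝓝 (Real.pi / 2 * realZeros Λ)) := by
  have hright : ∀ x : ℝ, 1 < x → Λ x ≠ 0 := by
    intro x hx
    refine ne_of_order hΛ ?_
    rw [← hord x (by linarith)]
    exact D.order_right (by rw [ofReal_re]; exact hx)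
  have hz : Λ ((3 : ℝ) : ℂ) ≠ 0 := hright 3 (by norm_num)
  have hfe' : ∀ s : ℂ, Λ (2 * ((0 : ℝ) : ℂ) - s) = w * Λ s := by
    intro s
    rw [ofReal_zero, mul_zero, zero_sub]
    exact hfe s
  have hfin : {x : ℝ | 0 < x ∧ Λ x = 0}.Finite := by
    refine D.finite_zeros.subset ?_
    rintro x ⟨hx, hx0⟩
    have hx1 : x ≤ 1 := by
      by_contra h2
      push Not at h2
      exact hright x h2 hx0
    refine ⟨⟨hx.le, by linarith⟩, ?_⟩
    rw [hord x hx.le]
    intro h
    exact ne_of_order hΛ h hx0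
  obtain ⟨hall, hcount⟩ := count hΛ hfe' hz hfin
  have hpar := parity hΛ hfe' hz
  rw [ofReal_zero] at hcount hpar
  set m := analyticOrderNatAt Λ 0 with hm
  set e := ∑ᶠ x ∈ Ioi (0 : ℝ), analyticOrderNatAt Λ ((x : ℝ) : ℂ) with he
  have hsign : (-1 : ℤ) ^ realZeros Λ = w := by
    rw [hcount, pow_add, pow_mul]
    norm_num
    exact hpar
  refine ⟨hall, hsign, fun γ => -(m * (Lam γ).im) + Real.pi * e, ?_, ?_, ?_⟩
  · intro γ hγ
    have h0 : meromorphicOrderAt Φ 0 = ((m : ℤ) : WithTop ℤ) := by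
      have := hord 0 le_rfl
      rw [ofReal_zero] at this
      rw [this, mero_order hΛ hz]
    obtain ⟨r₀, C, T₀, -, h2, hC, hT₀, h3⟩ := mdata_rot D h0 hγ
    have hex : (∑ᶠ x ∈ Ioc (0 : ℝ) 1, (meromorphicOrderAt Φ (x : ℂ)).untop₀) = (e : ℤ) := by
      have hc : ((e : ℕ) : ℤ) = ∑ᶠ x ∈ Ioi (0 : ℝ), ((analyticOrderNatAt Λ ((x : ℝ) : ℂ) : ℕ) : ℤ) := by
        rw [he]
        refine (Nat.castAddMonoidHom ℤ).map_finsum_mem' ?_
        refine hall.subset ?_
        rintro x ⟨-, hx⟩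
        exact apply_eq_zero_of_analyticOrderNatAt_ne_zero hx
      have h4 : (∑ᶠ x ∈ Ioc (0 : ℝ) 1, (meromorphicOrderAt Φ (x : ℂ)).untop₀) =
          ∑ᶠ x ∈ Ioc (0 : ℝ) 1, ((analyticOrderNatAt Λ ((x : ℝ) : ℂ) : ℕ) : ℤ) := by
        refine finsum_mem_congr rfl fun x hx => ?_
        rw [hord x hx.1.le, mero_order hΛ hz]
        rfl
      rw [hc, h4]
      refine finsum_mem_inter_support_eq' _ _ _ fun x hx => ?_
      rw [Function.mem_support] at hx
      have hx0 : analyticOrderNatAt Λ (x : ℂ) ≠ 0 := by exact_mod_cast hx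
      have hx1 := apply_eq_zero_of_analyticOrderNatAt_ne_zero hx0
      constructor
      · exact fun h => h.1
      · intro h
        refine ⟨h, ?_⟩
        by_contra h5
        push Not at h5
        exact hright x h5 hx1
    rw [hex] at h2
    have h4 : Tendsto (fun T : ℝ => -cmean lam c γ T - ((m : ℤ) * (Real.log T - Lam γ) - r₀)) atTop (𝓝 0) := by
      refine squeeze_zero_norm' ?_ (tendsto_const_nhds.div_atTop tendsto_id : Tendsto (fun T : ℝ => C / T) atTop (𝓝 0))
      filter_upwards [eventually_ge_atTop T₀] with T hT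
      exact h3 T hT
    have h5 := (Complex.continuous_im.tendsto 0).comp h4
    rw [Complex.zero_im] at h5
    have h6 := h5.add_const (-(m * (Lam γ).im) + Real.pi * e)
    rw [zero_add] at h6
    refine h6.congr fun T => ?_
    simp only [Function.comp_apply]
    rw [Complex.sub_im, Complex.sub_im, h2, Complex.neg_im]
    have e1 : (((m : ℤ) : ℂ) * ((Real.log T : ℂ) - Lam γ)).im = -(m * (Lam γ).im) := by
      rw [show (((m : ℕ) : ℤ) : ℂ) = ((m : ℝ) : ℂ) by push_cast; rfl, Complex.im_ofReal_mul, Complex.sub_im,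
        Complex.ofReal_im]
      ring
    rw [e1]
    push_cast
    ring
  · intro γ hγ
    have h1 := lam_im hγ
    have hπ := Real.pi_pos
    have hγ0 : 0 < γ := by linarith
    have h2 : -(m * (Lam γ).im) + Real.pi * e - Real.pi / 2 * realZeros Λ = -(m * ((Lam γ).im + Real.pi / 2)) := by
      rw [hcount]
      push_cast
      ring
    rw [h2, abs_neg, abs_mul, abs_of_nonneg (Nat.cast_nonneg m)]
    calc (m : ℝ) * |(Lam γ).im + Real.pi / 2| ≤
        m * (10 * (Real.exp (Real.exp 1) + 1) / γ) := mul_le_mul_of_nonneg_left h1 (Nat.cast_nonneg m)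
      _ = _ := by ring
  · have h1 : Tendsto (fun γ => -(m * (Lam γ).im) + Real.pi * e) atTop
        (𝓝 (-(m * (-(Real.pi / 2))) + Real.pi * e)) := ((lam_im_tendsto.const_mul _).neg).add_const _
    have h2 : -(m * (-(Real.pi / 2))) + Real.pi * e = Real.pi / 2 * realZeros Λ := by
      rw [hcount]
      push_cast
      ring
    rw [h2] at h1
    exact h1

end Pool.Agent.X298.PA
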