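import Pool.Agent.X298.PA.Base

/-!
# Rotated sums of a system of integers at `s = 0`
-/

set_option autoImplicit false

open Filter Topology Complex
open IsDedekindDomain NumberField

namespace Pool.Agent.X298.PA

open Pool.Agent.X298.ST
open Pool.Agent.W189.ML Pool.Agent.W189.LC Pool.Agent.W187.UR Pool.Agent.X287.CR

variable {K : Type} [Field K] [NumberField K] {S : Set (HeightOneSpectrum (𝓞 K))}

/-- the coefficients -/
noncomputable def cP (c : Places S → ℕ → ℤ) (x : Places S × ℕ) : ℂ := (c x.1 (x.2 + 1) : ℂ) / (x.2 + 1)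

theorem exp_lam (s : ℂ) (x : Places S × ℕ) :
    exp (-(s * lam nrm x)) = ((nrm x.1 : ℂ) ^ (-s)) ^ (x.2 + 1) := by
  rw [(qsys S).csys.cpow_eq, ← Complex.exp_nat_mul]
  congr 1
  unfold lam
  push_cast
  ring

theorem gsys_pure {c : Places S → ℕ → ℤ} (hc : IsPure (fun v k => (c v k : ℂ)) 1) :
    GSys (lam nrm) (cP c) (3 / 2) where
  cnt := by
    have := (qsys S).cnt
    infer_instance
  nonneg := (qsys S).csys.lam_nonneg
  sum := by
    intro σ hσ
    obtain ⟨d, hd⟩ := hc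
    have hb : ∀ x : Places S × ℕ, ‖(c x.1 (x.2 + 1) : ℂ) * ((nrm x.1 : ℂ) ^ (-((1 / 2 : ℝ) : ℂ))) ^ (x.2 + 1)‖ ≤ d := by
      intro x
      have hq : (0 : ℝ) < nrm x.1 := nrm_pos x.1
      have h1 := hd x.1 (x.2 + 1)
      simp only at h1
      have hn : ‖((nrm x.1 : ℂ) ^ (-((1 / 2 : ℝ) : ℂ)))‖ = (nrm x.1 : ℝ) ^ (-(1 / 2 : ℝ)) := by
        have h2 : (nrm x.1 : ℂ) = ((nrm x.1 : ℝ) : ℂ) := by push_cast; rfl
        rw [h2, Complex.norm_cpow_eq_rpow_re_of_pos hq, neg_re, ofReal_re]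
      have e2 : (nrm x.1 : ℝ) ^ (((1 : ℤ) : ℝ) / 2) = (nrm x.1 : ℝ) ^ (1 / 2 : ℝ) := by norm_num
      rw [e2] at h1
      rw [norm_mul, norm_pow, hn]
      have h3 : ((nrm x.1 : ℝ) ^ (1 / 2 : ℝ)) ^ (x.2 + 1) * ((nrm x.1 : ℝ) ^ (-(1 / 2 : ℝ))) ^ (x.2 + 1) = 1 := by
        rw [← mul_pow, ← Real.rpow_add hq, add_neg_cancel, Real.rpow_zero, one_pow]
      calc _ ≤ (d * ((nrm x.1 : ℝ) ^ (1 / 2 : ℝ)) ^ (x.2 + 1)) * ((nrm x.1 : ℝ) ^ (-(1 / 2 : ℝ))) ^ (x.2 + 1) :=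
            mul_le_mul_of_nonneg_right h1 (by positivity)
        _ = d := by rw [mul_assoc, h3, mul_one]
    have h1 := co_summable (qsys S) hb (σ := σ - 1 / 2) (by linarith)
    refine h1.congr fun x => ?_
    have e1 : co (fun x : Places S × ℕ => (c x.1 (x.2 + 1) : ℂ) *
        ((nrm x.1 : ℂ) ^ (-((1 / 2 : ℝ) : ℂ))) ^ (x.2 + 1)) x =
        cP c x * exp (-(((1 / 2 : ℝ) : ℂ) * lam nrm x)) := by
      rw [exp_lam]
      unfold co cP
      ring
    rw [e1, norm_mul, Complex.norm_exp, mul_assoc, ← Real.exp_add]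
    congr 2
    have e2 : (-(((1 / 2 : ℝ) : ℂ) * lam nrm x)).re = -((1 / 2) * lam nrm x) := by
      rw [Complex.neg_re, Complex.re_ofReal_mul, Complex.ofReal_re]
    rw [e2]
    ring

theorem log_pure (c : Places S → ℕ → ℤ) (s : ℂ) :
    (∑' x : Places S × ℕ, (c x.1 (x.2 + 1) : ℂ) * ((nrm x.1 : ℂ) ^ (-s)) ^ (x.2 + 1) / (x.2 + 1)) =
      sr (lam nrm) (cP c) s := by
  unfold sr
  refine tsum_congr fun x => ?_
  rw [exp_lam]
  unfold cP
  ring

/-- the summands of the rotated sum at `0` -/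
noncomputable def fP (c : Places S → ℕ → ℤ) (γ T : ℝ) (x : Places S × ℕ) : ℂ :=
  cP c x * exp (-((0 : ℂ) * lam nrm x)) * exp ((γ * (lam nrm x / T) : ℝ) * I) * (om (lam nrm x / T) : ℂ)

/-- the term of the real sum -/
noncomputable def tP (c : Places S → ℕ → ℤ) (γ T : ℝ) (x : Places S × ℕ) : ℝ :=
  c x.1 (x.2 + 1) * Real.cos (γ * ((x.2 + 1) * Real.log (nrm x.1) / T)) /
    ((x.2 + 1) * Real.Gamma (1 + (x.2 + 1) * Real.log (nrm x.1) / T))

theorem fP_re (c : Places S → ℕ → ℤ) (γ T : ℝ) (x : Places S × ℕ) : (fP c γ T x).re = tP c γ T x := by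
  have h1 : cP c x = (((c x.1 (x.2 + 1) : ℝ) / (x.2 + 1) : ℝ) : ℂ) := by
    unfold cP
    push_cast
    rfl
  unfold fP
  rw [zero_mul, neg_zero, Complex.exp_zero, mul_one, Complex.re_mul_ofReal, h1, Complex.re_ofReal_mul,
    Complex.exp_ofReal_mul_I_re]
  unfold tP om lam
  rw [div_eq_mul_inv _ (((x.2 : ℝ) + 1) * _), mul_inv]
  ring

theorem fP_summable {c : Places S → ℕ → ℤ} (hc : IsPure (fun v k => (c v k : ℂ)) 1) (γ : ℝ) {T : ℝ} (hT : 0 < T) :
    Summable fun x => ‖fP c γ T x‖ := (gsys_pure hc).summable 0 γ hT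

theorem tP_summable {c : Places S → ℕ → ℤ} (hc : IsPure (fun v k => (c v k : ℂ)) 1) (γ : ℝ) {T : ℝ} (hT : 0 < T) :
    Summable fun x => |tP c γ T x| := by
  refine Summable.of_nonneg_of_le (fun x => abs_nonneg _) (fun x => ?_) (fP_summable hc γ hT)
  rw [← fP_re]
  exact Complex.abs_re_le_norm _

theorem GS_re {c : Places S → ℕ → ℤ} (hc : IsPure (fun v k => (c v k : ℂ)) 1) (γ : ℝ) {T : ℝ} (hT : 0 < T) :
    (GS (lam nrm) (cP c) 0 γ T).re = -∑' x, tP c γ T x := by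
  have h1 : GS (lam nrm) (cP c) 0 γ T = -∑' x, fP c γ T x := rfl
  rw [h1, Complex.neg_re, Complex.re_tsum (fP_summable hc γ hT).of_norm]
  exact congrArg _ (tsum_congr fun x => fP_re c γ T x)

/-- **the law for the real sum** -/
theorem law_real {c : Places S → ℕ → ℤ} (hc : IsPure (fun v k => (c v k : ℂ)) 1) {D : ℂ → ℂ}
    (hD : Differentiable ℂ D) (hDe : ∀ s : ℂ, 3 / 2 < s.re → D s = exp (sr (lam nrm) (cP c) s)) {M : ℤ}
    (hM : meromorphicOrderAt D 0 = M) {γ : ℝ} (hγ : Real.pi / 2 < γ) :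
    ∃ r : ℝ, Real.exp r = ‖meromorphicTrailingCoeffAt D 0‖ ∧
      (fun T : ℝ => (∑' x, tP c γ T x) - (r - M * (Real.log T - (Lambda γ).re))) =O[atTop] (fun T : ℝ => 1 / T) := by
  obtain ⟨m, r₀, h1, h2, h3⟩ := (gsys_pure hc).law hDe (s₀ := 0) (fun x _ _ => (hD.analyticAt _).meromorphicAt) hγ
  have hmM : m = M := by
    rw [hM] at h1
    exact_mod_cast h1.symm
  subst hmM
  refine ⟨r₀.re, ?_, ?_⟩
  · rw [h2, Complex.norm_exp]
  have h4 : (fun T : ℝ => (GS (lam nrm) (cP c) 0 γ T - (m * (Real.log T - Lam γ) - r₀)).re) =O[atTop]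
      (fun T : ℝ => 1 / T) := by
    refine (Asymptotics.IsBigO.of_bound 1 (Eventually.of_forall fun T => ?_)).trans h3
    rw [one_mul, Real.norm_eq_abs]
    exact Complex.abs_re_le_norm _
  refine h4.neg_left.congr' ?_ EventuallyEq.rfl
  filter_upwards [eventually_gt_atTop (0 : ℝ)] with T hT
  rw [Complex.sub_re, GS_re hc γ hT]
  have e1 : ((m : ℂ) * ((Real.log T : ℂ) - Lam γ) - r₀).re = m * (Real.log T - (Lambda γ).re) - r₀.re := by
    rw [Complex.sub_re]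
    have : ((m : ℂ) * ((Real.log T : ℂ) - Lam γ)).re = m * (Real.log T - (Lambda γ).re) := by
      rw [show ((m : ℤ) : ℂ) = ((m : ℝ) : ℂ) by push_cast; rfl, Complex.re_ofReal_mul, Complex.sub_re,
        Complex.ofReal_re]
      rfl
    rw [this]
  rw [e1]
  ring

/-- the doubling difference -/
theorem doubling {R : ℝ → ℝ} {r κ : ℝ} {M : ℤ}
    (h : (fun T : ℝ => R T - (r - M * (Real.log T - κ))) =O[atTop] (fun T : ℝ => 1 / T)) :
    (fun T : ℝ => (R (2 * T) - R T) / Real.log 2 + M) =O[atTop] (fun T : ℝ => 1 / T) := by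
  have h1 : Tendsto (fun T : ℝ => 2 * T) atTop atTop := tendsto_id.const_mul_atTop (by norm_num)
  have h2 : (fun T : ℝ => R (2 * T) - (r - M * (Real.log (2 * T) - κ))) =O[atTop] (fun T : ℝ => 1 / T) := by
    refine (h.comp_tendsto h1).trans ?_
    refine Asymptotics.IsBigO.of_bound 1 (Eventually.of_forall fun T => ?_)
    simp only [Function.comp_apply, one_mul, Real.norm_eq_abs]
    rw [abs_div, abs_div, abs_mul, abs_one, abs_of_pos (by norm_num : (0 : ℝ) < 2)]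
    rcases eq_or_ne T 0 with h0 | h0
    · simp [h0]
    · have : 0 < |T| := abs_pos.2 h0
      exact one_div_le_one_div_of_le this (by linarith)
  have h3 := (h2.sub h).const_mul_left (Real.log 2)⁻¹
  refine h3.congr' ?_ EventuallyEq.rfl
  filter_upwards [eventually_gt_atTop (0 : ℝ)] with T hT
  have hl : Real.log 2 ≠ 0 := (Real.log_pos (by norm_num)).ne'
  rw [Real.log_mul (by norm_num) hT.ne']
  field_simp
  ring

theorem cos_lim {A : ℝ → ℝ} {M : ℤ} (h : (fun T : ℝ => A T + M) =O[atTop] (fun T : ℝ => 1 / T)) (k : ℤ) :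
    Tendsto (fun T : ℝ => Real.cos (Real.pi * (A T + k))) atTop (𝓝 ((-1 : ℝ) ^ (M + k))) := by
  have h1 : Tendsto (fun T : ℝ => A T + M) atTop (𝓝 0) := by
    refine h.trans_tendsto ?_
    simpa using tendsto_inv_atTop_zero (𝕜 := ℝ)
  have h2 : Tendsto (fun T : ℝ => Real.pi * (A T + k)) atTop (𝓝 (Real.pi * (k - M))) := by
    have h3 := (h1.add_const ((k : ℝ) - M)).const_mul Real.pi
    rw [zero_add] at h3
    refine h3.congr fun T => ?_
    ring
  have h3 := (Real.continuous_cos.tendsto _).comp h2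
  have e1 : Real.cos (Real.pi * (k - M)) = (-1 : ℝ) ^ (M + k) := by
    have : Real.pi * ((k : ℝ) - M) = ((k - M : ℤ) : ℝ) * Real.pi := by push_cast; ring
    rw [this, Real.cos_int_mul_pi]
    have h4 : k - M = (M + k) + (-(2 * M)) := by ring
    rw [h4, zpow_add₀ (by norm_num : (-1 : ℝ) ≠ 0), zpow_neg, zpow_mul]
    norm_num
  rw [e1] at h3
  exact h3

end Pool.Agent.X298.PA
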