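import Pool.Agent.X298.PA.AVDefs
import Pool.Agent.X298.PA.Pure

/-!
# Semistable abelian varieties: the root number from the places of good reduction
-/

set_option autoImplicit false

open Filter Topology Complex
open IsDedekindDomain NumberField

namespace Pool.Agent.X298.PA.AV

open Pool.Agent.X298.ST Pool.Agent.X298.PA
open Pool.Agent.X287.CR (sr lam)

variable {K : Type} [Field K] [NumberField K] {S : Finset (HeightOneSpectrum (𝓞 K))} {g : ℕ}

theorem pure (A : Frob S g) : IsPure (fun v k => (A.c v k : ℂ)) 1 := by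
  refine ⟨2 * g, fun v k => ?_⟩
  have hq : (0 : ℝ) ≤ nrm v := (nrm_pos v).le
  have h1 : (nrm v : ℝ) ^ (((1 : ℤ) : ℝ) / 2) = Real.sqrt (nrm v) := by
    rw [Real.sqrt_eq_rpow]
    norm_num
  rw [h1]
  simp only
  rw [← A.power]
  refine (norm_sum_le _ _).trans ?_
  have h2 : ∀ i : Fin (2 * g), ‖A.a v i ^ k‖ = Real.sqrt (nrm v) ^ k := fun i => by rw [norm_pow, A.norm_a]
  rw [Finset.sum_congr rfl fun i _ => h2 i, Finset.sum_const, Finset.card_univ, Fintype.card_fin, nsmul_eq_mul]
  push_cast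
  exact le_rfl

theorem two_le (v : HeightOneSpectrum (𝓞 K)) : 2 ≤ Ideal.absNorm v.asIdeal :=
  Pool.Agent.H921R2.TatePole.two_le_nm v

/-- the index set of the Euler factors at `S` -/
abbrev JJ (A : Frob S g) : Type := Σ v : S, (Fin (A.t v) ⊕ Fin (2 * (g - A.t v)))

/-- the eigenvalues at `S` -/
noncomputable def bb (A : Frob S g) (j : JJ A) : ℂ := Sum.elim (A.z j.1) (A.b j.1) j.2

/-- the norms at `S` -/
noncomputable def qq (A : Frob S g) (j : JJ A) : ℕ := Ideal.absNorm j.1.1.asIdeal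

theorem prod_factor (A : Frob S g) (s : ℂ) :
    ∏ j : JJ A, (1 - bb A j * (qq A j : ℂ) ^ (-s)) = ∏ v : S, factor A v s := by
  rw [Fintype.prod_sigma]
  refine Finset.prod_congr rfl fun v _ => ?_
  rw [Fintype.prod_sum_type]
  rfl

theorem b_ne (A : Frob S g) (v : S) (j : Fin (2 * (g - A.t v))) : A.b v j ≠ 1 := by
  intro h
  have h1 := A.norm_b v j
  rw [h, norm_one] at h1
  have h2 : (1 : ℝ) < Ideal.absNorm v.1.asIdeal := by
    have := two_le v.1
    exact_mod_cast (by omega : 1 < Ideal.absNorm v.1.asIdeal)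
  have h3 := Real.sqrt_lt_sqrt zero_le_one h2
  rw [Real.sqrt_one, ← h1] at h3
  exact lt_irrefl _ h3

open Classical in
theorem card_one (A : Frob S g) : (Finset.univ.filter fun j : JJ A => bb A j = 1).card = ∑ v : S, splitRank A v := by
  rw [Finset.card_filter, Fintype.sum_sigma]
  refine Finset.sum_congr rfl fun v _ => ?_
  rw [Fintype.sum_sum_type]
  unfold splitRank
  rw [Finset.card_filter]
  have h1 : (∑ x : Fin (2 * (g - A.t v)), (if bb A ⟨v, Sum.inr x⟩ = 1 then 1 else 0)) = 0 := by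
    refine Finset.sum_eq_zero fun x _ => ?_
    rw [if_neg]
    exact b_ne A v x
  rw [h1, add_zero]
  exact Finset.sum_congr rfl fun x _ => rfl

/-- the order of the incomplete `L`-function at `0` -/
noncomputable def MM (A : Frob S g) : ℕ := (∑ v : S, splitRank A v) + g * Module.finrank ℚ K

theorem main {A : Frob S g} {Λ : ℂ → ℂ} (h : HasseWeil A Λ) :
    ∃ D : ℂ → ℂ, Differentiable ℂ D ∧ (∀ s : ℂ, 3 / 2 < s.re → D s = exp (sr (lam nrm) (cP A.c) s)) ∧
      meromorphicOrderAt D 0 = ((MM A : ℤ) : WithTop ℤ) := by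
  classical
  obtain ⟨N, hN, heq⟩ := h.eq
  obtain ⟨ε, hfe⟩ := h.fe
  have hq : ∀ j : JJ A, 2 ≤ qq A j := fun j => two_le _
  have heq' : ∀ s : ℂ, 3 / 2 < s.re → Λ s * ∏ j : JJ A, (1 - bb A j * (qq A j : ℂ) ^ (-s)) =
      ((N : ℂ) ^ (s / 2) * ∏ i : Fin (g * Module.finrank ℚ K), ((2 * Real.pi : ℂ) ^ (-s) *
        Gamma (s + ((fun _ => 0 : Fin (g * Module.finrank ℚ K) → ℕ) i : ℕ)))) * exp (sr (lam nrm) (cP A.c) s) := by
    intro s hs
    rw [prod_factor, heq s hs]
    have e1 : logL A s = sr (lam nrm) (cP A.c) s := log_pure A.c s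
    rw [e1]
    simp
  refine ⟨DD (bb A) (qq A) (fun _ => 0 : Fin (g * Module.finrank ℚ K) → ℕ) N Λ, diff_DD hq hN h.entire,
    fun s hs => DD_eq hN heq' hs, ?_⟩
  rw [order_DD hq hN h.entire heq' hfe, card_one]
  unfold MM
  simp

/-- the root number -/
theorem root_eq (A : Frob S g) :
    rootNumber A = (-1) ^ (MM A + g * InfinitePlace.nrComplexPlaces K) := by
  unfold rootNumber MM
  rw [Finset.prod_const, Finset.card_univ, InfinitePlace.card_eq_nrRealPlaces_add_nrComplexPlaces,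
    Finset.prod_pow_eq_pow_sum, ← pow_mul, ← pow_add, ← InfinitePlace.card_add_two_mul_card_eq_rank]
  rw [neg_one_pow_eq_pow_mod_two, neg_one_pow_eq_pow_mod_two (n := (∑ v : S, splitRank A v) +
    g * (InfinitePlace.nrRealPlaces K + 2 * InfinitePlace.nrComplexPlaces K) +
      g * InfinitePlace.nrComplexPlaces K)]
  congr 1
  have : (∑ v : S, splitRank A v) + g * (InfinitePlace.nrRealPlaces K + 2 * InfinitePlace.nrComplexPlaces K) +
      g * InfinitePlace.nrComplexPlaces K = (g * (InfinitePlace.nrRealPlaces K + InfinitePlace.nrComplexPlaces K) +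
        ∑ v : S, splitRank A v) + 2 * (g * InfinitePlace.nrComplexPlaces K) := by ring
  rw [this, Nat.add_mul_mod_self_left]

end Pool.Agent.X298.PA.AV
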