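import Pool.Agent.X298.PA.GLDefs
import Pool.Agent.X298.PA.Abs
import Pool.Agent.X298.PA.Pure

/-!
# Conjugate self-dual representations of `GL_n` over an imaginary quadratic field: the sign from the Satake parameters
-/

set_option autoImplicit false

open Filter Topology Complex Set
open IsDedekindDomain NumberField

namespace Pool.Agent.X298.PA.GL

open Pool.Agent.X298.ST Pool.Agent.X298.PA
open Pool.Agent.X287.CR (lam)
open Pool.Agent.W189.ML (ser om om_nonneg)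
open Pool.Agent.W189.LC (MData)
open Pool.Agent.W187.UR (cmean)

variable {F : Type} [Field F] [NumberField F] {S : Finset (HeightOneSpectrum (𝓞 F))} {n : ℕ}

/-- the real parts of the power sums -/
noncomputable def bR (π : Rep S n) (x : Places (S : Set (HeightOneSpectrum (𝓞 F))) × ℕ) : ℝ :=
  (∑ i, π.a x.1 i ^ (x.2 + 1)).re

/-- the real coefficients -/
noncomputable def cR (π : Rep S n) (x : Places (S : Set (HeightOneSpectrum (𝓞 F))) × ℕ) : ℝ := bR π x / (x.2 + 1)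

theorem norm_sum (π : Rep S n) (x : Places (S : Set (HeightOneSpectrum (𝓞 F))) × ℕ) :
    ‖∑ i, π.a x.1 i ^ (x.2 + 1)‖ ≤ n := by
  have hq : (0 : ℝ) < nrm x.1 := nrm_pos x.1
  have hq1 : (1 : ℝ) ≤ nrm x.1 := by
    have h1 := (qsys (S : Set (HeightOneSpectrum (𝓞 F)))).two_le x.1
    exact_mod_cast (by omega : 1 ≤ nrm x.1)
  refine (norm_sum_le _ _).trans ?_
  have h2 : ∀ i : Fin n, ‖π.a x.1 i ^ (x.2 + 1)‖ ≤ 1 := by
    intro i
    rw [norm_pow, π.norm_a]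
    refine pow_le_one₀ (Real.rpow_nonneg hq.le _) ?_
    exact Real.rpow_le_one_of_one_le_of_nonpos hq1 (by norm_num)
  calc (∑ i : Fin n, ‖π.a x.1 i ^ (x.2 + 1)‖) ≤ ∑ _i : Fin n, (1 : ℝ) := Finset.sum_le_sum fun i _ => h2 i
    _ = n := by simp

theorem bR_le (π : Rep S n) (x : Places (S : Set (HeightOneSpectrum (𝓞 F))) × ℕ) : ‖((bR π x : ℝ) : ℂ)‖ ≤ n := by
  rw [Complex.norm_real, Real.norm_eq_abs]
  exact (Complex.abs_re_le_norm _).trans (norm_sum π x)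

/-- the conjugation on the index set -/
noncomputable def conjE (π : Rep S n) : Places (S : Set (HeightOneSpectrum (𝓞 F))) × ℕ ≃
    Places (S : Set (HeightOneSpectrum (𝓞 F))) × ℕ where
  toFun x := (π.conj x.1, x.2)
  invFun x := (π.conj x.1, x.2)
  left_inv x := by simp [π.conj_conj]
  right_inv x := by simp [π.conj_conj]

theorem csummable (π : Rep S n) {s : ℂ} (hs : 1 < s.re) :
    Summable fun x : Places (S : Set (HeightOneSpectrum (𝓞 F))) × ℕ =>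
      (∑ i, π.a x.1 i ^ (x.2 + 1)) * ((nrm x.1 : ℂ) ^ (-s)) ^ (x.2 + 1) / (x.2 + 1) := by
  refine (co_csummable (qsys (S : Set (HeightOneSpectrum (𝓞 F)))) (norm_sum π) hs).congr fun x => ?_
  rw [exp_lam]
  unfold co
  ring

/-- the logarithm has real coefficients -/
theorem log_eq (π : Rep S n) {s : ℂ} (hs : 1 < s.re) : logL π s = ser (lam nrm) (cR π) s := by
  have h1 := csummable π hs
  have h2 : logL π s = ∑' x : Places (S : Set (HeightOneSpectrum (𝓞 F))) × ℕ,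
      (starRingEnd ℂ) (∑ i, π.a x.1 i ^ (x.2 + 1)) * ((nrm x.1 : ℂ) ^ (-s)) ^ (x.2 + 1) / (x.2 + 1) := by
    unfold logL
    rw [← (conjE π).tsum_eq]
    refine tsum_congr fun x => ?_
    have e1 : (conjE π x).1 = π.conj x.1 := rfl
    have e2 : (conjE π x).2 = x.2 := rfl
    rw [e1, e2, π.conj_a, π.conj_nrm]
  have h3 : Summable fun x : Places (S : Set (HeightOneSpectrum (𝓞 F))) × ℕ =>
      (starRingEnd ℂ) (∑ i, π.a x.1 i ^ (x.2 + 1)) * ((nrm x.1 : ℂ) ^ (-s)) ^ (x.2 + 1) / (x.2 + 1) := by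
    refine ((conjE π).summable_iff.2 h1).congr fun x => ?_
    have e1 : (conjE π x).1 = π.conj x.1 := rfl
    have e2 : (conjE π x).2 = x.2 := rfl
    simp only [Function.comp_apply]
    rw [e1, e2, π.conj_a, π.conj_nrm]
  have h4 : logL π s + logL π s = ∑' x : Places (S : Set (HeightOneSpectrum (𝓞 F))) × ℕ,
      (((∑ i, π.a x.1 i ^ (x.2 + 1)) * ((nrm x.1 : ℂ) ^ (-s)) ^ (x.2 + 1) / (x.2 + 1)) +
        ((starRingEnd ℂ) (∑ i, π.a x.1 i ^ (x.2 + 1)) * ((nrm x.1 : ℂ) ^ (-s)) ^ (x.2 + 1) / (x.2 + 1))) := by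
    rw [h1.tsum_add h3, ← h2]
    rfl
  have h5 : (∑' x : Places (S : Set (HeightOneSpectrum (𝓞 F))) × ℕ,
      (((∑ i, π.a x.1 i ^ (x.2 + 1)) * ((nrm x.1 : ℂ) ^ (-s)) ^ (x.2 + 1) / (x.2 + 1)) +
        ((starRingEnd ℂ) (∑ i, π.a x.1 i ^ (x.2 + 1)) * ((nrm x.1 : ℂ) ^ (-s)) ^ (x.2 + 1) / (x.2 + 1)))) =
      2 * ser (lam nrm) (cR π) s := by
    unfold ser
    rw [← tsum_mul_left]
    refine tsum_congr fun x => ?_
    rw [exp_lam]
    have h6 : (∑ i, π.a x.1 i ^ (x.2 + 1)) + (starRingEnd ℂ) (∑ i, π.a x.1 i ^ (x.2 + 1)) =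
        ((2 * bR π x : ℝ) : ℂ) := by
      rw [Complex.add_conj]
      rfl
    have h7 : ((cR π x : ℝ) : ℂ) = (bR π x : ℂ) / (x.2 + 1) := by
      unfold cR
      push_cast
      rfl
    rw [h7, ← add_div, ← add_mul, h6]
    push_cast
    ring
  rw [h5, ← two_mul] at h4
  exact mul_left_cancel₀ two_ne_zero h4

/-- the index set of the Euler factors at `S` -/
abbrev JJ (π : Rep S n) : Type := Σ v : S, Fin (π.m v)

/-- the eigenvalues at `S` -/
noncomputable def bb (π : Rep S n) (j : JJ π) : ℂ := π.b j.1 j.2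

/-- the norms at `S` -/
noncomputable def qq (π : Rep S n) (j : JJ π) : ℕ := Ideal.absNorm j.1.1.asIdeal

theorem qq_two (π : Rep S n) (j : JJ π) : 2 ≤ qq π j := Pool.Agent.H921R2.TatePole.two_le_nm j.1.1

theorem prod_factor (π : Rep S n) (s : ℂ) :
    ∏ j : JJ π, (1 - bb π j * (qq π j : ℂ) ^ (-s)) =
      ∏ v : S, ∏ j, (1 - π.b v j * (Ideal.absNorm v.1.asIdeal : ℂ) ^ (-s)) := by
  rw [Fintype.prod_sigma]
  rfl

theorem DD_pt {J : Type} [Fintype J] {β : J → ℂ} {q : J → ℕ} {n : ℕ} {κ : Fin n → ℕ} {N : ℝ} {Λ E : ℂ → ℂ}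
    (hN : 0 < N) {s : ℂ} (hs : 0 < s.re) (heq : Λ s * ∏ j, (1 - β j * (q j : ℂ) ^ (-s)) =
      ((N : ℂ) ^ (s / 2) * ∏ i, ((2 * Real.pi : ℂ) ^ (-s) * Gamma (s + κ i))) * exp (E s)) :
    DD β q κ N Λ s = exp (E s) := by
  have hN' : (N : ℂ) ≠ 0 := by exact_mod_cast hN.ne'
  unfold DD
  rw [heq]
  have h1 : (N : ℂ) ^ (s / 2) * (N : ℂ) ^ (-s / 2) = 1 := by
    rw [← Complex.cpow_add _ _ hN']
    have : s / 2 + -s / 2 = 0 := by ring
    rw [this, Complex.cpow_zero]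
  have h2 : (∏ i, ((2 * Real.pi : ℂ) ^ (-s) * Gamma (s + κ i))) *
      ∏ i, ((2 * Real.pi : ℂ) ^ s * (Gamma (s + κ i))⁻¹) = 1 := by
    rw [← Finset.prod_mul_distrib]
    refine Finset.prod_eq_one fun i _ => ?_
    have h3 : (2 * Real.pi : ℂ) ^ (-s) * (2 * Real.pi : ℂ) ^ s = 1 := by
      rw [← Complex.cpow_add _ _ two_pi_ne, neg_add_cancel, Complex.cpow_zero]
    have h4 : Gamma (s + κ i) ≠ 0 := by
      refine Complex.Gamma_ne_zero_of_re_pos ?_
      rw [add_re, natCast_re]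
      have : (0 : ℝ) ≤ κ i := Nat.cast_nonneg _
      linarith
    calc _ = ((2 * Real.pi : ℂ) ^ (-s) * (2 * Real.pi : ℂ) ^ s) * (Gamma (s + κ i) * (Gamma (s + κ i))⁻¹) := by ring
      _ = 1 := by rw [h3, mul_inv_cancel₀ h4, one_mul]
  calc _ = ((N : ℂ) ^ (s / 2) * (N : ℂ) ^ (-s / 2)) * ((∏ i, ((2 * Real.pi : ℂ) ^ (-s) * Gamma (s + κ i))) *
      ∏ i, ((2 * Real.pi : ℂ) ^ s * (Gamma (s + κ i))⁻¹)) * exp (E s) := by ring
    _ = exp (E s) := by rw [h1, h2, one_mul, one_mul]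

theorem order_pt {J : Type} [Fintype J] {β : J → ℂ} {q : J → ℕ} {n : ℕ} {κ : Fin n → ℕ} {N : ℝ} {Λ : ℂ → ℂ}
    (hN : 0 < N) (hq : ∀ j, 2 ≤ q j) (hβ : ∀ j, ‖β j‖ < 1) (hκ : ∀ i, 1 ≤ κ i) (hΛ : Differentiable ℂ Λ) {s : ℂ}
    (hs : 0 ≤ s.re) : meromorphicOrderAt (DD β q κ N Λ) s = meromorphicOrderAt Λ s := by
  have hN' : (N : ℂ) ≠ 0 := by exact_mod_cast hN.ne'
  have hd : Differentiable ℂ fun s : ℂ => (∏ j, (1 - β j * (q j : ℂ) ^ (-s))) * ((N : ℂ) ^ (-s / 2) *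
    ∏ i, ((2 * Real.pi : ℂ) ^ s * (Gamma (s + κ i))⁻¹)) :=
    (Differentiable.fun_finsetProd fun j _ => diff_euler (β j) (hq j)).mul ((diff_power hN).mul
      (Differentiable.fun_finsetProd fun i _ => diff_two_pi.mul (diff_gamma (κ i))))
  have e0 : DD β q κ N Λ = fun s => Λ s * ((∏ j, (1 - β j * (q j : ℂ) ^ (-s))) * ((N : ℂ) ^ (-s / 2) *
    ∏ i, ((2 * Real.pi : ℂ) ^ s * (Gamma (s + κ i))⁻¹))) := by
    funext s
    unfold DD
    ring
  rw [e0, fun_meromorphicOrderAt_mul (hΛ.analyticAt _).meromorphicAt (hd.analyticAt _).meromorphicAt,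
    order_zero (hd.analyticAt _) ?_, add_zero]
  refine mul_ne_zero (Finset.prod_ne_zero_iff.2 fun j _ => ?_) (mul_ne_zero ?_
    (Finset.prod_ne_zero_iff.2 fun i _ => mul_ne_zero ?_ (inv_ne_zero ?_)))
  · intro h
    have h1 : β j * (q j : ℂ) ^ (-s) = 1 := (sub_eq_zero.1 h).symm
    have h2 := congrArg norm h1
    have hqj : (0 : ℝ) < q j := by
      have := hq j
      exact_mod_cast (by omega : 0 < q j)
    have hqj1 : (1 : ℝ) ≤ q j := by
      have := hq j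
      exact_mod_cast (by omega : 1 ≤ q j)
    have h3 : ‖((q j : ℂ) ^ (-s))‖ ≤ 1 := by
      have : (q j : ℂ) = ((q j : ℝ) : ℂ) := by push_cast; rfl
      rw [this, Complex.norm_cpow_eq_rpow_re_of_pos hqj, neg_re]
      exact Real.rpow_le_one_of_one_le_of_nonpos hqj1 (by linarith)
    rw [norm_mul, norm_one] at h2
    have h4 := hβ j
    nlinarith [norm_nonneg (β j), norm_nonneg ((q j : ℂ) ^ (-s))]
  · rw [Complex.cpow_def_of_ne_zero hN']
    exact Complex.exp_ne_zero _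
  · rw [Complex.cpow_def_of_ne_zero two_pi_ne]
    exact Complex.exp_ne_zero _
  · refine Complex.Gamma_ne_zero_of_re_pos ?_
    rw [add_re, natCast_re]
    have : (1 : ℝ) ≤ κ i := by exact_mod_cast hκ i
    linarith

/-- the rotated sum -/
theorem cmean_eq (π : Rep S n) (γ T : ℝ) : cmean (lam nrm) (cR π) γ T = RS nrm (fun x => ((bR π x : ℝ) : ℂ)) γ T := by
  unfold cmean RS
  refine tsum_congr fun x => ?_
  rw [rt_eq]
  unfold co cR
  push_cast
  rfl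

theorem sTerm_eq (π : Rep S n) (γ T : ℝ) (x : Places (S : Set (HeightOneSpectrum (𝓞 F))) × ℕ) :
    sTerm π γ T x = -(rt nrm (fun x => ((bR π x : ℝ) : ℂ)) γ T x).im := by
  have e1 : rt nrm (fun x => ((bR π x : ℝ) : ℂ)) γ T x =
      ((bR π x / ((x.2 + 1) * Real.Gamma (1 + (x.2 + 1) * Real.log (nrm x.1) / T)) : ℝ) : ℂ) *
        exp ((γ * ((x.2 + 1) * Real.log (nrm x.1) / T) : ℝ) * I) := by
    unfold rt
    push_cast
    ring
  rw [e1, Complex.im_ofReal_mul, Complex.exp_ofReal_mul_I_im]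
  unfold sTerm bR
  ring

theorem sSum_eq (π : Rep S n) (γ : ℝ) {T : ℝ} (hT : 0 < T) :
    sSum π γ T = -(cmean (lam nrm) (cR π) γ T).im := by
  rw [cmean_eq]
  unfold sSum RS
  rw [Complex.im_tsum (rt_summable (qsys _) (bR_le π) γ hT).of_norm, ← tsum_neg]
  exact tsum_congr fun x => sTerm_eq π γ T x

theorem sTerm_summable (π : Rep S n) (γ : ℝ) {T : ℝ} (hT : 0 < T) : Summable fun x => |sTerm π γ T x| := by
  refine Summable.of_nonneg_of_le (fun x => abs_nonneg _) (fun x => ?_) (rt_summable (qsys _) (bR_le π) γ hT)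
  rw [sTerm_eq, abs_neg]
  exact Complex.abs_im_le_norm _

/-- **the sign and the real zeros** -/
theorem main {π : Rep S n} {ε : ℤ} {Λ : ℂ → ℂ} (h : Completed π ε Λ) :
    {x : ℝ | Λ x = 0}.Finite ∧ (-1 : ℤ) ^ realZeros Λ = ε ∧
    ∃ ℓ : ℝ → ℝ, (∀ γ : ℝ, Real.pi / 2 < γ → Tendsto (fun T : ℝ => sSum π γ T) atTop (𝓝 (ℓ γ))) ∧
      (∀ γ : ℝ, 2 * Real.pi ≤ γ → |ℓ γ - Real.pi / 2 * realZeros Λ| ≤
        10 * (Real.exp (Real.exp 1) + 1) * analyticOrderNatAt Λ 0 / γ) ∧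
      Tendsto ℓ atTop (𝓝 (Real.pi / 2 * realZeros Λ)) := by
  obtain ⟨N, hN, heq⟩ := h.eq
  have : Countable (Places (S : Set (HeightOneSpectrum (𝓞 F)))) := (qsys _).cnt
  have D : MData (lam nrm) (cR π) (DD (bb π) (qq π) π.κ N Λ) := by
    refine ⟨(qsys (S : Set (HeightOneSpectrum (𝓞 F)))).csys.lam_nonneg, fun σ hσ => ?_, fun x _ => ?_, fun w hw => ?_⟩
    · refine (co_summable (qsys (S : Set (HeightOneSpectrum (𝓞 F)))) (bR_le π) hσ).congr fun x => ?_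
      congr 1
      unfold co cR
      rw [norm_div, Complex.norm_real, Real.norm_eq_abs, abs_div]
      congr 1
      have : ((x.2 : ℂ) + 1) = (((x.2 : ℝ) + 1 : ℝ) : ℂ) := by push_cast; rfl
      rw [this, Complex.norm_real, Real.norm_eq_abs]
    · exact ((diff_DD (qq_two π) hN h.entire).analyticAt _).meromorphicAt
    · refine DD_pt (E := fun s => ser (lam nrm) (cR π) s) hN (by linarith) ?_
      rw [prod_factor, heq w (by linarith), log_eq π hw]
  obtain ⟨h1, h2, ℓ, h3, h4, h5⟩ := abs_main D h.entire (fun x hx =>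
    order_pt hN (qq_two π) (fun j => π.norm_b j.1 j.2) π.κ_pos h.entire (by rw [ofReal_re]; exact hx)) h.fe
  refine ⟨h1, h2, ℓ, fun γ hγ => ?_, h4, h5⟩
  refine (h3 γ hγ).congr' ?_
  filter_upwards [eventually_gt_atTop (0 : ℝ)] with T hT
  exact (sSum_eq π γ hT).symm

end Pool.Agent.X298.PA.GL
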