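import Pool.Agent.X298.PA.Pure

/-!
# Rotated sums of a system of real numbers at `s = 0`
-/

set_option autoImplicit false

open Filter Topology Complex
open IsDedekindDomain NumberField

namespace Pool.Agent.X298.PA.RR

open Pool.Agent.X298.ST Pool.Agent.X298.PA
open Pool.Agent.W189.ML Pool.Agent.W189.LC Pool.Agent.W187.UR Pool.Agent.X287.CR

variable {K : Type} [Field K] [NumberField K] {S : Set (HeightOneSpectrum (𝓞 K))}

/-- the coefficients -/
noncomputable def cP (c : Places S → ℕ → ℝ) (x : Places S × ℕ) : ℂ := (c x.1 (x.2 + 1) : ℂ) / (x.2 + 1)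

theorem gsys_pure {c : Places S → ℕ → ℝ} (hc : IsPure (fun v k => (c v k : ℂ)) 1) :
    GSys (lam nrm) (cP c) (3 / 2) where
  cnt := by
    have := (qsys S).cnt
    infer_instance
  nonneg := (qsys S).csys.lam_nonneg
  sum := by
    intro σ hσ
    obtain ⟨d, hd⟩ := hc
    have hb : ∀ x : Places S × ℕ, ‖(c x.1 (x.2 + 1) : ℂ) * ((nrm x.1 : ℂ) ^ (-((1 / 2 : ℝ) : ℂ))) ^ (x.2 + 1)‖ ≤ d := by
      intro x
      have hq : (0 : ℝ) < nrm x.1 := nrm_pos x.1
      have h1 := hd x.1 (x.2 + 1)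
      simp only at h1
      have hn : ‖((nrm x.1 : ℂ) ^ (-((1 / 2 : ℝ) : ℂ)))‖ = (nrm x.1 : ℝ) ^ (-(1 / 2 : ℝ)) := by
        have h2 : (nrm x.1 : ℂ) = ((nrm x.1 : ℝ) : ℂ) := by push_cast; rfl
        rw [h2, Complex.norm_cpow_eq_rpow_re_of_pos hq, neg_re, ofReal_re]
      have e2 : (nrm x.1 : ℝ) ^ (((1 : ℤ) : ℝ) / 2) = (nrm x.1 : ℝ) ^ (1 / 2 : ℝ) := by norm_num
      rw [e2] at h1
      rw [norm_mul, norm_pow, hn]
      have h3 : ((nrm x.1 : ℝ) ^ (1 / 2 : ℝ)) ^ (x.2 + 1) * ((nrm x.1 : ℝ) ^ (-(1 / 2 : ℝ))) ^ (x.2 + 1) = 1 := by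
        rw [← mul_pow, ← Real.rpow_add hq, add_neg_cancel, Real.rpow_zero, one_pow]
      calc _ ≤ (d * ((nrm x.1 : ℝ) ^ (1 / 2 : ℝ)) ^ (x.2 + 1)) * ((nrm x.1 : ℝ) ^ (-(1 / 2 : ℝ))) ^ (x.2 + 1) :=
            mul_le_mul_of_nonneg_right h1 (by positivity)
        _ = d := by rw [mul_assoc, h3, mul_one]
    have h1 := co_summable (qsys S) hb (σ := σ - 1 / 2) (by linarith)
    refine h1.congr fun x => ?_
    have e1 : co (fun x : Places S × ℕ => (c x.1 (x.2 + 1) : ℂ) *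
        ((nrm x.1 : ℂ) ^ (-((1 / 2 : ℝ) : ℂ))) ^ (x.2 + 1)) x =
        cP c x * exp (-(((1 / 2 : ℝ) : ℂ) * lam nrm x)) := by
      rw [exp_lam]
      unfold co cP
      ring
    rw [e1, norm_mul, Complex.norm_exp, mul_assoc, ← Real.exp_add]
    congr 2
    have e2 : (-(((1 / 2 : ℝ) : ℂ) * lam nrm x)).re = -((1 / 2) * lam nrm x) := by
      rw [Complex.neg_re, Complex.re_ofReal_mul, Complex.ofReal_re]
    rw [e2]
    ring

theorem log_pure (c : Places S → ℕ → ℝ) (s : ℂ) :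
    (∑' x : Places S × ℕ, (c x.1 (x.2 + 1) : ℂ) * ((nrm x.1 : ℂ) ^ (-s)) ^ (x.2 + 1) / (x.2 + 1)) =
      sr (lam nrm) (cP c) s := by
  unfold sr
  refine tsum_congr fun x => ?_
  rw [exp_lam]
  unfold cP
  ring

/-- the summands of the rotated sum at `0` -/
noncomputable def fP (c : Places S → ℕ → ℝ) (γ T : ℝ) (x : Places S × ℕ) : ℂ :=
  cP c x * exp (-((0 : ℂ) * lam nrm x)) * exp ((γ * (lam nrm x / T) : ℝ) * I) * (om (lam nrm x / T) : ℂ)

/-- the term of the real sum -/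
noncomputable def tP (c : Places S → ℕ → ℝ) (γ T : ℝ) (x : Places S × ℕ) : ℝ :=
  c x.1 (x.2 + 1) * Real.cos (γ * ((x.2 + 1) * Real.log (nrm x.1) / T)) /
    ((x.2 + 1) * Real.Gamma (1 + (x.2 + 1) * Real.log (nrm x.1) / T))

theorem fP_re (c : Places S → ℕ → ℝ) (γ T : ℝ) (x : Places S × ℕ) : (fP c γ T x).re = tP c γ T x := by
  have h1 : cP c x = (((c x.1 (x.2 + 1) : ℝ) / (x.2 + 1) : ℝ) : ℂ) := by
    unfold cP
    push_cast
    rfl
  unfold fP
  rw [zero_mul, neg_zero, Complex.exp_zero, mul_one, Complex.re_mul_ofReal, h1, Complex.re_ofReal_mul,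
    Complex.exp_ofReal_mul_I_re]
  unfold tP om lam
  rw [div_eq_mul_inv _ (((x.2 : ℝ) + 1) * _), mul_inv]
  ring

theorem fP_summable {c : Places S → ℕ → ℝ} (hc : IsPure (fun v k => (c v k : ℂ)) 1) (γ : ℝ) {T : ℝ} (hT : 0 < T) :
    Summable fun x => ‖fP c γ T x‖ := (gsys_pure hc).summable 0 γ hT

theorem tP_summable {c : Places S → ℕ → ℝ} (hc : IsPure (fun v k => (c v k : ℂ)) 1) (γ : ℝ) {T : ℝ} (hT : 0 < T) :
    Summable fun x => |tP c γ T x| := by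
  refine Summable.of_nonneg_of_le (fun x => abs_nonneg _) (fun x => ?_) (fP_summable hc γ hT)
  rw [← fP_re]
  exact Complex.abs_re_le_norm _

theorem GS_re {c : Places S → ℕ → ℝ} (hc : IsPure (fun v k => (c v k : ℂ)) 1) (γ : ℝ) {T : ℝ} (hT : 0 < T) :
    (GS (lam nrm) (cP c) 0 γ T).re = -∑' x, tP c γ T x := by
  have h1 : GS (lam nrm) (cP c) 0 γ T = -∑' x, fP c γ T x := rfl
  rw [h1, Complex.neg_re, Complex.re_tsum (fP_summable hc γ hT).of_norm]
  exact congrArg _ (tsum_congr fun x => fP_re c γ T x)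

/-- **the law for the real sum** -/
theorem law_real {c : Places S → ℕ → ℝ} (hc : IsPure (fun v k => (c v k : ℂ)) 1) {D : ℂ → ℂ}
    (hD : Differentiable ℂ D) (hDe : ∀ s : ℂ, 3 / 2 < s.re → D s = exp (sr (lam nrm) (cP c) s)) {M : ℤ}
    (hM : meromorphicOrderAt D 0 = M) {γ : ℝ} (hγ : Real.pi / 2 < γ) :
    ∃ r : ℝ, Real.exp r = ‖meromorphicTrailingCoeffAt D 0‖ ∧
      (fun T : ℝ => (∑' x, tP c γ T x) - (r - M * (Real.log T - (Lambda γ).re))) =O[atTop] (fun T : ℝ => 1 / T) := by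
  obtain ⟨m, r₀, h1, h2, h3⟩ := (gsys_pure hc).law hDe (s₀ := 0) (fun x _ _ => (hD.analyticAt _).meromorphicAt) hγ
  have hmM : m = M := by
    rw [hM] at h1
    exact_mod_cast h1.symm
  subst hmM
  refine ⟨r₀.re, ?_, ?_⟩
  · rw [h2, Complex.norm_exp]
  have h4 : (fun T : ℝ => (GS (lam nrm) (cP c) 0 γ T - (m * (Real.log T - Lam γ) - r₀)).re) =O[atTop]
      (fun T : ℝ => 1 / T) := by
    refine (Asymptotics.IsBigO.of_bound 1 (Eventually.of_forall fun T => ?_)).trans h3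
    rw [one_mul, Real.norm_eq_abs]
    exact Complex.abs_re_le_norm _
  refine h4.neg_left.congr' ?_ EventuallyEq.rfl
  filter_upwards [eventually_gt_atTop (0 : ℝ)] with T hT
  rw [Complex.sub_re, GS_re hc γ hT]
  have e1 : ((m : ℂ) * ((Real.log T : ℂ) - Lam γ) - r₀).re = m * (Real.log T - (Lambda γ).re) - r₀.re := by
    rw [Complex.sub_re]
    have : ((m : ℂ) * ((Real.log T : ℂ) - Lam γ)).re = m * (Real.log T - (Lambda γ).re) := by
      rw [show ((m : ℤ) : ℂ) = ((m : ℝ) : ℂ) by push_cast; rfl, Complex.re_ofReal_mul, Complex.sub_re,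
        Complex.ofReal_re]
      rfl
    rw [this]
  rw [e1]
  ring

end Pool.Agent.X298.PA.RR
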