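import Pool.Agent.X298.PA.HMDefs
import Pool.Agent.X298.PA.PureR
import Pool.Agent.X298.PA.Zeros

/-!
# Hilbert modular newforms of squarefree level: the sign from the Hecke eigenvalues outside of the level
-/

set_option autoImplicit false

open Filter Topology Complex
open IsDedekindDomain NumberField

namespace Pool.Agent.X298.PA.HM

open Pool.Agent.X298.ST Pool.Agent.X298.PA
open Pool.Agent.X287.CR (sr lam)

variable {F : Type} [Field F] [NumberField F] {S : Finset (HeightOneSpectrum (𝓞 F))}

/-- the coefficients -/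
noncomputable def cH (f : Form S) (v : Places (S : Set (HeightOneSpectrum (𝓞 F)))) (k : ℕ) : ℝ :=
  psum (f.t v) (nrm v) k

theorem psum_eq (f : Form S) (v : Places (S : Set (HeightOneSpectrum (𝓞 F)))) (n : ℕ) :
    (psum (f.t v) (nrm v) n : ℂ) = f.α v ^ n + f.β v ^ n := by
  induction n using Nat.twoStepInduction with
  | zero => simp [psum]; norm_num
  | one => simp [psum, f.add]
  | more n ih1 ih2 =>
    simp only [psum]
    push_cast
    rw [ih1, ih2, ← f.add, ← f.mul]
    ring

theorem pure (f : Form S) : IsPure (fun v k => (cH f v k : ℂ)) 1 := by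
  refine ⟨2, fun v k => ?_⟩
  have h1 : (nrm v : ℝ) ^ (((1 : ℤ) : ℝ) / 2) = Real.sqrt (nrm v) := by
    rw [Real.sqrt_eq_rpow]
    norm_num
  rw [h1]
  simp only
  unfold cH
  rw [psum_eq]
  refine (norm_add_le _ _).trans ?_
  rw [norm_pow, norm_pow, f.norm_left, f.norm_right]
  linarith

theorem two_le (v : HeightOneSpectrum (𝓞 F)) : 2 ≤ Ideal.absNorm v.asIdeal :=
  Pool.Agent.H921R2.TatePole.two_le_nm v

theorem main {f : Form S} {Λ : ℂ → ℂ} (h : Completed f Λ) :
    (∃ D : ℂ → ℂ, Differentiable ℂ D ∧ (∀ s : ℂ, 3 / 2 < s.re → D s = exp (sr (lam nrm) (RR.cP (cH f)) s)) ∧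
      meromorphicOrderAt D 0 = ((MM f : ℤ) : WithTop ℤ)) ∧
    (-1 : ℤ) ^ analyticOrderNatAt Λ 1 = rootNumber f := by
  classical
  obtain ⟨N, hN, heq⟩ := h.eq
  set n := Fintype.card (InfinitePlace F) with hn
  set e0 : Fin n ≃ InfinitePlace F := (Fintype.equivFin (InfinitePlace F)).symm with he0
  set κ : Fin n → ℕ := fun i => f.k (e0 i) / 2 - 1 with hκ
  have hq : ∀ v : S, 2 ≤ Ideal.absNorm v.1.asIdeal := fun v => two_le _
  have heq' : ∀ s : ℂ, 3 / 2 < s.re → Λ s * ∏ v : S, (1 - (f.e v : ℂ) * ((Ideal.absNorm v.1.asIdeal : ℕ) : ℂ) ^ (-s)) =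
      ((N : ℂ) ^ (s / 2) * ∏ i, ((2 * Real.pi : ℂ) ^ (-s) * Gamma (s + κ i))) *
        exp (sr (lam nrm) (RR.cP (cH f)) s) := by
    intro s hs
    rw [heq s hs]
    have e1 : logL f s = sr (lam nrm) (RR.cP (cH f)) s := RR.log_pure (cH f) s
    rw [e1]
    congr 2
    exact (Fintype.prod_equiv e0 _ _ fun i => rfl).symm
  have hfe : ∀ s : ℂ, Λ (2 - s) = ((rootNumber f : ℤ) : ℂ) * Λ s := h.fe
  refine ⟨⟨DD (fun v : S => (f.e v : ℂ)) (fun v : S => Ideal.absNorm v.1.asIdeal) κ N Λ, diff_DD hq hN h.entire,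
    fun s hs => DD_eq hN heq' hs, ?_⟩, ?_⟩
  · rw [order_DD hq hN h.entire heq' hfe]
    unfold MM
    have e1 : (Finset.univ.filter fun v : S => (f.e v : ℂ) = 1).card = (Finset.univ.filter fun v : S => f.e v = 1).card := by
      congr 1
      ext v
      simp only [Finset.mem_filter, Finset.mem_univ, true_and]
      exact ⟨fun h => by exact_mod_cast h, fun h => by exact_mod_cast h⟩
    have e2 : (Finset.univ.filter fun i => κ i = 0).card = (Finset.univ.filter fun v => f.k v = 2).card := by
      refine Finset.card_bij (fun i _ => e0 i) ?_ (fun a _ b _ hab => e0.injective hab) ?_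
      · intro i hi
        simp only [Finset.mem_filter, Finset.mem_univ, true_and] at hi ⊢
        rw [hκ] at hi
        simp only at hi
        have h1 := f.two_le (e0 i)
        obtain ⟨r, hr⟩ := f.even (e0 i)
        omega
      · intro v hv
        simp only [Finset.mem_filter, Finset.mem_univ, true_and] at hv
        refine ⟨e0.symm v, ?_, by simp⟩
        simp only [Finset.mem_filter, Finset.mem_univ, true_and]
        rw [hκ]
        simp only [Equiv.apply_symm_apply]
        omega
    rw [e1, e2]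
    push_cast
    rw [add_comm]
  · have hfe1 : ∀ s : ℂ, Λ (2 * ((1 : ℝ) : ℂ) - s) = rootNumber f * Λ s := by
      intro s
      rw [ofReal_one, mul_one]
      exact h.fe s
    have h1 := parity h.entire hfe1 (lam_zero (β := fun v : S => (f.e v : ℂ))
      (q := fun v : S => Ideal.absNorm v.1.asIdeal) (κ := κ) hN heq' hfe)
    rw [ofReal_one] at h1
    exact h1

theorem root_eq (f : Form S) : rootNumber f = (-1) ^ (MM f + HH f) := by
  classical
  unfold rootNumber MM HH
  have h1 : (∏ v : InfinitePlace F, (-1 : ℤ) ^ (f.k v / 2)) =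
      (-1) ^ ((Finset.univ.filter fun v => f.k v = 2).card + ∑ v ∈ Finset.univ.filter fun v => f.k v ≠ 2, f.k v / 2) := by
    rw [Finset.prod_pow_eq_pow_sum, ← Finset.sum_filter_add_sum_filter_not Finset.univ (fun v => f.k v = 2)]
    congr 2
    rw [Finset.card_eq_sum_ones]
    refine Finset.sum_congr rfl fun v hv => ?_
    rw [Finset.mem_filter] at hv
    rw [hv.2]
  have h2 : (∏ v : S, (-f.e v)) = (-1 : ℤ) ^ (Finset.univ.filter fun v : S => f.e v = 1).card := by
    rw [← Finset.prod_filter_mul_prod_filter_not Finset.univ (fun v : S => f.e v = 1)]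
    have h3 : (∏ v ∈ Finset.univ.filter (fun v : S => f.e v = 1), (-f.e v)) =
        (-1 : ℤ) ^ (Finset.univ.filter fun v : S => f.e v = 1).card := by
      rw [← Finset.prod_const]
      refine Finset.prod_congr rfl fun v hv => ?_
      rw [Finset.mem_filter] at hv
      rw [hv.2]
    have h4 : (∏ v ∈ Finset.univ.filter (fun v : S => ¬ f.e v = 1), (-f.e v)) = 1 := by
      refine Finset.prod_eq_one fun v hv => ?_
      rw [Finset.mem_filter] at hv
      rw [(f.sign v).resolve_left hv.2]
      norm_num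
    rw [h3, h4, mul_one]
  rw [h1, h2, ← pow_add]
  congr 1
  ring

end Pool.Agent.X298.PA.HM
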