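import Mathlib.Analysis.Analytic.Order
import Mathlib.Analysis.Complex.Basic
import Mathlib.Algebra.BigOperators.Finprod

/-!
# The real zeros of an entire function
-/

set_option autoImplicit false

namespace Pool.Agent.X298.PA

/-- The number of the real zeros of the function `Λ`, with multiplicities. -/
noncomputable def realZeros (Λ : ℂ → ℂ) : ℕ := ∑ᶠ x : ℝ, analyticOrderNatAt Λ (x : ℂ)

end Pool.Agent.X298.PA
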