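import Mathlib
import Pool.Agent.X298.PA.ZDefs

/-!
# Elliptic curves over number fields: the imaginary parts of the rotated sums, definitions
-/

set_option autoImplicit false

open IsDedekindDomain NumberField

namespace Pool.Agent.X298.PA.NF

variable {K : Type} [Field K] [NumberField K]

/-- The local polynomial `1 - a_v X + e_v X²` of `E` at `v` (Mathlib): `a_v = q_v + 1 - #E(k_v)` and
`e_v = q_v` for a minimal model with good reduction at `v`, and `e_v = 0` and `a_v = 1`, `-1`, `0` for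
split multiplicative, non-split multiplicative, additive reduction. -/
noncomputable def localPoly (E : WeierstrassCurve K) (v : HeightOneSpectrum (𝓞 K)) : Polynomial ℤ :=
  (E.baseChange (v.adicCompletion K)).localPolynomial (v.adicCompletionIntegers K)

/-- The power sums `α ^ n + β ^ n` for a polynomial `1 - a X + e X² = (1 - α X) (1 - β X)`, by the recursion. -/
def powerSum (P : Polynomial ℤ) : ℕ → ℤ
  | 0 => 2
  | 1 => -P.coeff 1
  | n + 2 => -P.coeff 1 * powerSum P (n + 1) - P.coeff 2 * powerSum P n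

/-- `q_v`, the number of elements of the residue field -/
noncomputable def q (v : HeightOneSpectrum (𝓞 K)) : ℝ := (Ideal.absNorm v.asIdeal : ℝ)

/-- The term `- (α_v ^ k + β_v ^ k) sin(γ k log q_v / T) / (k q_v ^ k Γ(1 + k log q_v / T))` of `v = x.1` and
`k = x.2 + 1`. -/
noncomputable def sTerm (E : WeierstrassCurve K) (γ T : ℝ) (x : HeightOneSpectrum (𝓞 K) × ℕ) : ℝ :=
  -(powerSum (localPoly E x.1) (x.2 + 1) : ℝ) * Real.sin (γ * ((x.2 + 1) * Real.log (q x.1) / T)) /
      ((x.2 + 1) * q x.1 ^ (x.2 + 1) * Real.Gamma (1 + (x.2 + 1) * Real.log (q x.1) / T))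

/-- `s_γ(T)` -/
noncomputable def sSum (E : WeierstrassCurve K) (γ T : ℝ) : ℝ := ∑' x, sTerm E γ T x

/-- The conjecture of Hasse and Weil for `E / K` with the root number `w`: `Λ` is entire, equal to
`N^{s/2} ((2π)^{-s} Γ(s))^[K : ℚ] L(E / K, s)` for `Re s > 2`, and `Λ(2 - s) = w Λ(s)`. -/
structure HasseWeil (E : WeierstrassCurve K) (w : ℤ) (Λ : ℂ → ℂ) : Prop where
  entire : Differentiable ℂ Λ
  eq : ∃ N : ℝ, 0 < N ∧ ∀ s : ℂ, 2 < s.re → Λ s = ((N : ℂ) ^ (s / 2) *
    ((2 * Real.pi : ℂ) ^ (-s) * Complex.Gamma s) ^ Module.finrank ℚ K) * E.LSeries s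
  fe : ∀ s : ℂ, Λ (2 - s) = w * Λ s

open Classical in
/-- the rank of the group `E(K)` -/
noncomputable def rank (E : WeierstrassCurve K) : ℕ := Module.finrank ℤ E.toAffine.Point

end Pool.Agent.X298.PA.NF
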