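import Mathlib
import Pool.Agent.X298.ST.DDefs

/-!
# Semistable abelian varieties: Frobenius eigenvalues, root number and rotated sums at `s = 0`, definitions
-/

set_option autoImplicit false

open IsDedekindDomain NumberField

namespace Pool.Agent.X298.PA.AV

open Pool.Agent.X298.ST

variable {K : Type} [Field K] [NumberField K]

/-- The Frobenius eigenvalues of a semistable abelian variety `A / K` of dimension `g` on its Tate module, `S` a finite set
of places which contains the places of bad reduction: for `v ∉ S` the `2g` eigenvalues `a v i` with the integral power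
sums `c v k`; for `v ∈ S` the toric rank `t v`, the eigenvalues `z v i` (`i < t v`) of the toric part and the
eigenvalues `b v j` (`j < 2 (g - t v)`) of the abelian part of the reduction. -/
structure Frob (S : Finset (HeightOneSpectrum (𝓞 K))) (g : ℕ) where
  c : Places (S : Set (HeightOneSpectrum (𝓞 K))) → ℕ → ℤ
  a : Places (S : Set (HeightOneSpectrum (𝓞 K))) → Fin (2 * g) → ℂ
  power : ∀ v k, ∑ i, a v i ^ k = c v k
  norm_a : ∀ v i, ‖a v i‖ = Real.sqrt (nrm v)
  t : S → ℕ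
  z : (v : S) → Fin (t v) → ℂ
  norm_z : ∀ v i, ‖z v i‖ = 1
  b : (v : S) → Fin (2 * (g - t v)) → ℂ
  norm_b : ∀ v j, ‖b v j‖ = Real.sqrt (Ideal.absNorm v.1.asIdeal)

variable {S : Finset (HeightOneSpectrum (𝓞 K))} {g : ℕ}

open Classical in
/-- The split toric rank at `v ∈ S`: the multiplicity of the eigenvalue `1` in the toric part. -/
noncomputable def splitRank (A : Frob S g) (v : S) : ℕ := (Finset.univ.filter fun i => A.z v i = 1).card

/-- The product of the local root numbers of the semistable `A`: `(-1)^g` at every infinite place and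
`(-1)^(split toric rank)` at `v ∈ S`. -/
noncomputable def rootNumber (A : Frob S g) : ℤ :=
  (∏ _v : InfinitePlace K, (-1) ^ g) * ∏ v : S, (-1) ^ splitRank A v

/-- The Euler factor `∏ (1 - z q_v^{-s}) ∏ (1 - b q_v^{-s})` at `v ∈ S`. -/
noncomputable def factor (A : Frob S g) (v : S) (s : ℂ) : ℂ :=
  (∏ i, (1 - A.z v i * (Ideal.absNorm v.1.asIdeal : ℂ) ^ (-s))) *
    ∏ j, (1 - A.b v j * (Ideal.absNorm v.1.asIdeal : ℂ) ^ (-s))

/-- `log L_S(A, s) = ∑_{v ∉ S} ∑_{k ≥ 1} c_v(k) q_v^{-ks} / k`. -/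
noncomputable def logL (A : Frob S g) (s : ℂ) : ℂ :=
  ∑' x : Places (S : Set (HeightOneSpectrum (𝓞 K))) × ℕ,
    (A.c x.1 (x.2 + 1) : ℂ) * ((nrm x.1 : ℂ) ^ (-s)) ^ (x.2 + 1) / (x.2 + 1)

/-- The conjecture of Hasse and Weil for `A / K`: `Λ` is entire, equal to
`N^{s/2} ((2π)^{-s} Γ(s))^(g [K : ℚ]) L(A, s)` for `Re s > 3/2`, and `Λ(2 - s) = ε Λ(s)` with a constant `ε`. -/
structure HasseWeil (A : Frob S g) (Λ : ℂ → ℂ) : Prop where
  entire : Differentiable ℂ Λ
  eq : ∃ N : ℝ, 0 < N ∧ ∀ s : ℂ, 3 / 2 < s.re → Λ s * ∏ v : S, factor A v s = ((N : ℂ) ^ (s / 2) *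
    ((2 * Real.pi : ℂ) ^ (-s) * Complex.Gamma s) ^ (g * Module.finrank ℚ K)) * Complex.exp (logL A s)
  fe : ∃ ε : ℂ, ∀ s : ℂ, Λ (2 - s) = ε * Λ s

/-- The term `c_v(k) cos(γ k log q_v / T) / (k Γ(1 + k log q_v / T))` of `v = x.1` and `k = x.2 + 1`. -/
noncomputable def rTerm (A : Frob S g) (γ T : ℝ) (x : Places (S : Set (HeightOneSpectrum (𝓞 K))) × ℕ) : ℝ :=
  A.c x.1 (x.2 + 1) * Real.cos (γ * ((x.2 + 1) * Real.log (nrm x.1) / T)) /
    ((x.2 + 1) * Real.Gamma (1 + (x.2 + 1) * Real.log (nrm x.1) / T))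

/-- `R_γ(T)`, a sum over the places outside of `S` only. -/
noncomputable def rSum (A : Frob S g) (γ T : ℝ) : ℝ := ∑' x, rTerm A γ T x

end Pool.Agent.X298.PA.AV
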