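import Mathlib
import Pool.Agent.X298.ST.DDefs
import Pool.Agent.X298.PA.ZDefs

/-!
# Conjugate self-dual representations of `GL_n` over an imaginary quadratic field: definitions
-/

set_option autoImplicit false

open IsDedekindDomain NumberField

namespace Pool.Agent.X298.PA.GL

open Pool.Agent.X298.ST

variable {F : Type} [Field F] [NumberField F]

/-- The local data of a regular algebraic cuspidal `π` on `GL_n` over the imaginary quadratic field `F` with
`π^∨ ≃ π^c |·|^{-1}`, `S` a finite set of places which contains the ramified ones and is stable under `c`: for `v ∉ S` the Satake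
parameters `a v i`, of absolute value `q_v^{-1/2}`; the involution `v ↦ v^c` of the places outside of `S`, which preserves
the norms and replaces the power sums of the Satake parameters by their complex conjugates; for `v ∈ S` the parameters `b v j`
of the local `L`-factor `∏ (1 - b q_v^{-s})⁻¹`, of absolute value `< 1`; and the parameters `κ i ≥ 1` of the factor
`∏ (2π)^{-s} Γ(s + κ_i)` at infinity. -/
structure Rep (S : Finset (HeightOneSpectrum (𝓞 F))) (n : ℕ) where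
  a : Places (S : Set (HeightOneSpectrum (𝓞 F))) → Fin n → ℂ
  norm_a : ∀ v i, ‖a v i‖ = (nrm v : ℝ) ^ (-(1 / 2 : ℝ))
  conj : Places (S : Set (HeightOneSpectrum (𝓞 F))) → Places (S : Set (HeightOneSpectrum (𝓞 F)))
  conj_conj : ∀ v, conj (conj v) = v
  conj_nrm : ∀ v, nrm (conj v) = nrm v
  conj_a : ∀ v k, ∑ i, a (conj v) i ^ k = (starRingEnd ℂ) (∑ i, a v i ^ k)
  m : S → ℕ
  b : (v : S) → Fin (m v) → ℂ
  norm_b : ∀ v j, ‖b v j‖ < 1
  κ : Fin n → ℕ
  κ_pos : ∀ i, 1 ≤ κ i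

variable {S : Finset (HeightOneSpectrum (𝓞 F))} {n : ℕ}

/-- `log L_S(s, π) = ∑_{v ∉ S} ∑_{k ≥ 1} (∑_i a_{v,i}^k) q_v^{-ks} / k`. -/
noncomputable def logL (π : Rep S n) (s : ℂ) : ℂ :=
  ∑' x : Places (S : Set (HeightOneSpectrum (𝓞 F))) × ℕ,
    (∑ i, π.a x.1 i ^ (x.2 + 1)) * ((nrm x.1 : ℂ) ^ (-s)) ^ (x.2 + 1) / (x.2 + 1)

/-- `Λ` is the completed `L`-function of `π`, with the centre `s = 0` and the sign `ε`: entire, equal to
`N^{s/2} ∏_i (2π)^{-s} Γ(s + κ_i) · L(s, π)` for `Re s > 1/2`, and `Λ(-s) = ε Λ(s)`. -/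
structure Completed (π : Rep S n) (ε : ℤ) (Λ : ℂ → ℂ) : Prop where
  entire : Differentiable ℂ Λ
  eq : ∃ N : ℝ, 0 < N ∧ ∀ s : ℂ, 1 / 2 < s.re →
    Λ s * ∏ v : S, ∏ j, (1 - π.b v j * (Ideal.absNorm v.1.asIdeal : ℂ) ^ (-s)) = ((N : ℂ) ^ (s / 2) *
      ∏ i, ((2 * Real.pi : ℂ) ^ (-s) * Complex.Gamma (s + π.κ i))) * Complex.exp (logL π s)
  fe : ∀ s : ℂ, Λ (-s) = ε * Λ s

/-- The term `- Re(∑_i a_{v,i}^k) sin(γ k log q_v / T) / (k Γ(1 + k log q_v / T))` of `v = x.1` and `k = x.2 + 1`. -/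
noncomputable def sTerm (π : Rep S n) (γ T : ℝ) (x : Places (S : Set (HeightOneSpectrum (𝓞 F))) × ℕ) : ℝ :=
  -(∑ i, π.a x.1 i ^ (x.2 + 1)).re * Real.sin (γ * ((x.2 + 1) * Real.log (nrm x.1) / T)) /
    ((x.2 + 1) * Real.Gamma (1 + (x.2 + 1) * Real.log (nrm x.1) / T))

/-- `s_γ(T)` -/
noncomputable def sSum (π : Rep S n) (γ T : ℝ) : ℝ := ∑' x, sTerm π γ T x

end Pool.Agent.X298.PA.GL
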