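import Mathlib
import Pool.Agent.X298.ST.DDefs

/-!
# Hilbert modular newforms of squarefree level and rotated sums of their Hecke eigenvalues: definitions
-/

set_option autoImplicit false

open IsDedekindDomain NumberField

namespace Pool.Agent.X298.PA.HM

open Pool.Agent.X298.ST

variable {F : Type} [Field F] [NumberField F]

/-- The local data of a Hilbert modular newform over `F` of squarefree level (`S` the set of the places which divide the level)
and trivial central character: the weight `k v` at the infinite place `v`, even and `≥ 2`; the Hecke eigenvalue `t v` at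
`v ∉ S`, with the roots `α v`, `β v` of `X² - t_v X + q_v`, of absolute value `√q_v`; and the eigenvalue `e v = ± 1` at `v ∈ S`
(`v` is Steinberg, its Euler factor is `(1 - e_v q_v^{-s})⁻¹`). -/
structure Form (S : Finset (HeightOneSpectrum (𝓞 F))) where
  k : InfinitePlace F → ℕ
  even : ∀ v, Even (k v)
  two_le : ∀ v, 2 ≤ k v
  t : Places (S : Set (HeightOneSpectrum (𝓞 F))) → ℝ
  α : Places (S : Set (HeightOneSpectrum (𝓞 F))) → ℂ
  β : Places (S : Set (HeightOneSpectrum (𝓞 F))) → ℂ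
  add : ∀ v, α v + β v = t v
  mul : ∀ v, α v * β v = nrm v
  norm_left : ∀ v, ‖α v‖ = Real.sqrt (nrm v)
  norm_right : ∀ v, ‖β v‖ = Real.sqrt (nrm v)
  e : S → ℤ
  sign : ∀ v, e v = 1 ∨ e v = -1

/-- The power sums `α ^ n + β ^ n` for `α + β = t`, `α β = q`, by the recursion. -/
def psum (t q : ℝ) : ℕ → ℝ
  | 0 => 2
  | 1 => t
  | n + 2 => t * psum t q (n + 1) - q * psum t q n

variable {S : Finset (HeightOneSpectrum (𝓞 F))}

/-- The root number `∏_{v | ∞} (-1)^{k_v / 2} ∏_{v ∈ S} (- e_v)`. -/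
noncomputable def rootNumber (f : Form S) : ℤ := (∏ v, (-1) ^ (f.k v / 2)) * ∏ v : S, (-f.e v)

/-- `log L_S(f, s) = ∑_{v ∉ S} ∑_{k ≥ 1} (α_v^k + β_v^k) q_v^{-ks} / k`, with the centre `s = 1`. -/
noncomputable def logL (f : Form S) (s : ℂ) : ℂ :=
  ∑' x : Places (S : Set (HeightOneSpectrum (𝓞 F))) × ℕ,
    (psum (f.t x.1) (nrm x.1) (x.2 + 1) : ℂ) * ((nrm x.1 : ℂ) ^ (-s)) ^ (x.2 + 1) / (x.2 + 1)

/-- `Λ` is the completed `L`-function of `f`: entire, equal to `N^{s/2} ∏_{v | ∞} (2π)^{-s} Γ(s + k_v/2 - 1) · L(f, s)`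
for `Re s > 3/2`, and `Λ(2 - s) = ε Λ(s)` with the root number `ε`. -/
structure Completed (f : Form S) (Λ : ℂ → ℂ) : Prop where
  entire : Differentiable ℂ Λ
  eq : ∃ N : ℝ, 0 < N ∧ ∀ s : ℂ, 3 / 2 < s.re →
    Λ s * ∏ v : S, (1 - (f.e v : ℂ) * (Ideal.absNorm v.1.asIdeal : ℂ) ^ (-s)) = ((N : ℂ) ^ (s / 2) *
      ∏ v, ((2 * Real.pi : ℂ) ^ (-s) * Complex.Gamma (s + ((f.k v / 2 - 1 : ℕ) : ℂ)))) * Complex.exp (logL f s)
  fe : ∀ s : ℂ, Λ (2 - s) = rootNumber f * Λ s

/-- The number of the infinite places of weight `2` plus the number of the `v ∈ S` with `e_v = 1`. -/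
noncomputable def MM (f : Form S) : ℕ :=
  (Finset.univ.filter fun v => f.k v = 2).card + (Finset.univ.filter fun v : S => f.e v = 1).card

/-- `∑ k_v / 2` over the infinite places with `k_v > 2`. -/
noncomputable def HH (f : Form S) : ℕ := ∑ v ∈ Finset.univ.filter fun v => f.k v ≠ 2, f.k v / 2

/-- The term `(α_v^k + β_v^k) cos(γ k log q_v / T) / (k Γ(1 + k log q_v / T))` of `v = x.1` and `k = x.2 + 1`. -/
noncomputable def rTerm (f : Form S) (γ T : ℝ) (x : Places (S : Set (HeightOneSpectrum (𝓞 F))) × ℕ) : ℝ :=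
  psum (f.t x.1) (nrm x.1) (x.2 + 1) * Real.cos (γ * ((x.2 + 1) * Real.log (nrm x.1) / T)) /
    ((x.2 + 1) * Real.Gamma (1 + (x.2 + 1) * Real.log (nrm x.1) / T))

/-- `R_γ(T)`: a sum over the Hecke eigenvalues `t_v`, `v ∉ S`. -/
noncomputable def rSum (f : Form S) (γ T : ℝ) : ℝ := ∑' x, rTerm f γ T x

end Pool.Agent.X298.PA.HM
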